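import Pool.Agent.Lib.MP_09cbbd_ndg.DefZ

/-!
# Hard spheres and thin hard needles: the phase transition
-/

set_option autoImplicit false

namespace Pool.Agent.NeedleGas

open MeasureTheory Filter Topology Pool.Agent.SquareWellGas

/-- First-order phase transition between a phase with the density `ρ₁ ≤ m₁` and a phase with the
density `ρ₂ ≥ m₂` of the spheres, where `ρ₀` is the maximal density of the spheres. For cubes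
`[0, ℓ)^d` and numbers `N` of spheres with `ℓ → ∞` and `N / ℓ^d → ρ`, the partition function is
eventually positive with `log Z / ℓ^d → f ρ` if `0 < ρ < ρ₀`, and eventually zero if `ρ > ρ₀`. On
`(0, ρ₀)` the function `f` is at most an affine function, with equality exactly on an interval
`[ρ₁, ρ₂]` with `0 < ρ₁ < ρ₂ < ρ₀`, and `f` is not real-analytic at `ρ₁` and at `ρ₂`. -/
def Transition (d : ℕ) (a L z ρ₀ m₁ m₂ : ℝ) : Prop :=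
  ∃ (f : ℝ → ℝ) (ρ₁ ρ₂ c e : ℝ), 0 < ρ₁ ∧ ρ₁ < ρ₂ ∧ ρ₂ < ρ₀ ∧ ρ₁ ≤ m₁ ∧ m₂ ≤ ρ₂ ∧
    (∀ (ℓ : ℕ → ℝ) (N : ℕ → ℕ) (ρ : ℝ), Tendsto ℓ atTop atTop →
      Tendsto (fun j => (N j : ℝ) / ℓ j ^ d) atTop (𝓝 ρ) →
      (ρ ∈ Set.Ioo 0 ρ₀ → (∀ᶠ j in atTop, 0 < Z d a L z (ℓ j) (N j)) ∧
        Tendsto (fun j => Real.log (Z d a L z (ℓ j) (N j)) / ℓ j ^ d) atTop (𝓝 (f ρ))) ∧
      (ρ₀ < ρ → ∀ᶠ j in atTop, Z d a L z (ℓ j) (N j) = 0)) ∧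
    (∀ ρ ∈ Set.Ioo 0 ρ₀, f ρ ≤ c * ρ + e ∧ (f ρ = c * ρ + e ↔ ρ ∈ Set.Icc ρ₁ ρ₂)) ∧
    ¬ AnalyticAt ℝ f ρ₁ ∧ ¬ AnalyticAt ℝ f ρ₂

end Pool.Agent.NeedleGas
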