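import Pool.Agent.Lib.MP_09cbbd_mx.CanC
import Pool.Agent.Lib.MP_09cbbd_ndg.Def

/-!
# The weight of the needles in the presence of the spheres
-/

set_option autoImplicit false

namespace Pool.Agent.Ndc

open MeasureTheory Finset Filter Topology Pool.Agent.StableGas Pool.Agent.SquareWellGas
  Pool.Agent.SquareWell Pool.Agent.NeedleGas Pool.Agent.ConfinedGas Pool.Agent.Mix.CanM

variable {d : ℕ}

theorem continuous_nrm : Continuous (nrm : (Fin d → ℝ) → ℝ) := by
  unfold nrm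
  fun_prop

theorem measurable_hitf (L t : ℝ) : Measurable
    fun p : (Fin d → ℝ) × ((Fin d → ℝ) × (Fin d → ℝ)) =>
      ∑ k, (p.1 k - pt p.2.1 p.2.2 (L / 2 * t) k) ^ 2 := by
  unfold pt
  refine Finset.measurable_sum _ fun k _ => ?_
  have h1 : Measurable fun p : (Fin d → ℝ) × ((Fin d → ℝ) × (Fin d → ℝ)) => nrm p.2.2 :=
    continuous_nrm.measurable.comp (measurable_snd.comp measurable_snd)
  have h2 : Measurable fun p : (Fin d → ℝ) × ((Fin d → ℝ) × (Fin d → ℝ)) => p.2.2 k :=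
    (measurable_pi_apply k).comp (measurable_snd.comp measurable_snd)
  have h3 : Measurable fun p : (Fin d → ℝ) × ((Fin d → ℝ) × (Fin d → ℝ)) => p.2.1 k :=
    (measurable_pi_apply k).comp (measurable_fst.comp measurable_snd)
  have h4 : Measurable fun p : (Fin d → ℝ) × ((Fin d → ℝ) × (Fin d → ℝ)) => p.1 k :=
    (measurable_pi_apply k).comp measurable_fst
  exact (h4.sub (h3.add (measurable_const.mul (h2.div h1)))).pow_const 2

theorem Hit_iff {L : ℝ} (hL : 0 < L) {a : ℝ} {x y g : Fin d → ℝ} :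
    Hit a L x y g ↔ ∃ t : ℚ, |(t : ℝ)| ≤ 1 ∧
      ∑ k, (x k - pt y g (L / 2 * (t : ℝ)) k) ^ 2 < a ^ 2 := by
  constructor
  · rintro ⟨s, hs, h⟩
    obtain ⟨U, hU⟩ : ∃ U : Set ℝ, U = {u : ℝ | ∑ k, (x k - pt y g (L / 2 * u) k) ^ 2 < a ^ 2} :=
      ⟨_, rfl⟩
    have hUo : IsOpen U := by
      rw [hU]
      unfold pt
      refine isOpen_lt ?_ continuous_const
      fun_prop
    obtain ⟨u, hu⟩ : ∃ u : ℝ, u = s / (L / 2) := ⟨_, rfl⟩
    have hus : L / 2 * u = s := by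
      rw [hu]
      field_simp
    have huU : u ∈ U := by
      rw [hU]
      simp only [Set.mem_ofPred_eq, hus]
      exact h
    have hu1 : |u| ≤ 1 := by
      rw [hu, abs_div, abs_of_pos (half_pos hL), div_le_one (half_pos hL)]
      exact hs
    have hcl : u ∈ closure (Set.Ioo (-1 : ℝ) 1) := by
      rw [closure_Ioo (by norm_num)]
      exact abs_le.1 hu1
    obtain ⟨v, hvU, hv⟩ := mem_closure_iff.1 hcl U hUo huU
    obtain ⟨t, ht⟩ := Rat.denseRange_cast.exists_mem_open (hUo.inter isOpen_Ioo) ⟨v, hvU, hv⟩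
    refine ⟨t, ?_, ?_⟩
    · exact abs_le.2 ⟨ht.2.1.le, ht.2.2.le⟩
    · have := ht.1
      rw [hU] at this
      exact this
  · rintro ⟨t, ht, h⟩
    refine ⟨L / 2 * t, ?_, h⟩
    rw [abs_mul, abs_of_pos (half_pos hL)]
    calc L / 2 * |(t : ℝ)| ≤ L / 2 * 1 := mul_le_mul_of_nonneg_left ht (half_pos hL).le
      _ = L / 2 := mul_one _

theorem measurableSet_Hit {L : ℝ} (hL : 0 < L) (a : ℝ) :
    MeasurableSet {p : (Fin d → ℝ) × ((Fin d → ℝ) × (Fin d → ℝ)) |
      Hit a L p.1 p.2.1 p.2.2} := by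
  have e : {p : (Fin d → ℝ) × ((Fin d → ℝ) × (Fin d → ℝ)) | Hit a L p.1 p.2.1 p.2.2} =
      ⋃ t : ℚ, {p | |(t : ℝ)| ≤ 1 ∧
        ∑ k, (p.1 k - pt p.2.1 p.2.2 (L / 2 * (t : ℝ)) k) ^ 2 < a ^ 2} := by
    ext p
    simp only [Set.mem_ofPred_eq, Set.mem_iUnion]
    exact Hit_iff hL
  rw [e]
  refine MeasurableSet.iUnion fun t => ?_
  by_cases ht : |(t : ℝ)| ≤ 1
  · simp only [ht, true_and]
    exact measurableSet_lt (measurable_hitf L t) measurable_const
  · simp only [ht, false_and]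
    exact MeasurableSet.empty

/-- A sphere which meets a needle is near its centre. -/
theorem sq_of_Hit {a L : ℝ} (ha : 0 < a) (hL : 0 ≤ L) {x y g : Fin d → ℝ}
    (h : Hit a L x y g) : ConfinedGas.sq x y < (L / 2 + a) ^ 2 := by
  obtain ⟨s, hs, h⟩ := h
  obtain ⟨u, hu⟩ : ∃ u : Fin d → ℝ, u = fun k => x k - pt y g s k := ⟨_, rfl⟩
  obtain ⟨v, hv⟩ : ∃ v : Fin d → ℝ, v = fun k => s * (g k / nrm g) := ⟨_, rfl⟩
  have h1 : ∑ k, u k ^ 2 < a ^ 2 := by
    rw [hu]
    exact h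
  have h2 : ∑ k, v k ^ 2 ≤ (L / 2) ^ 2 := by
    have h3 : ∑ k, v k ^ 2 = s ^ 2 * ((∑ k, g k ^ 2) / nrm g ^ 2) := by
      rw [hv, Finset.sum_div, Finset.mul_sum]
      refine sum_congr rfl fun k _ => ?_
      rw [mul_pow, div_pow]
    have h4 : nrm g ^ 2 = ∑ k, g k ^ 2 := by
      unfold nrm
      exact Real.sq_sqrt (sum_nonneg fun _ _ => sq_nonneg _)
    rw [h3, h4]
    have h5 : (∑ k, g k ^ 2) / (∑ k, g k ^ 2) ≤ 1 := div_self_le_one _
    have h6 : s ^ 2 ≤ (L / 2) ^ 2 := sq_le_sq.2 (hs.trans (le_abs_self _))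
    calc s ^ 2 * ((∑ k, g k ^ 2) / (∑ k, g k ^ 2)) ≤ s ^ 2 * 1 :=
          mul_le_mul_of_nonneg_left h5 (sq_nonneg _)
      _ ≤ _ := by rw [mul_one]; exact h6
  have h3 : ∑ k, u k * v k ≤ a * (L / 2) := by
    have h4 := Finset.sum_mul_sq_le_sq_mul_sq univ u v
    have h5 : (∑ k, u k * v k) ^ 2 ≤ (a * (L / 2)) ^ 2 := by
      rw [mul_pow]
      exact h4.trans (mul_le_mul h1.le h2 (sum_nonneg fun _ _ => sq_nonneg _) (sq_nonneg _))
    exact (le_abs_self _).trans (abs_le_of_sq_le_sq h5 (mul_nonneg ha.le (by linarith)))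
  have h4 : ConfinedGas.sq x y = ∑ k, u k ^ 2 + 2 * ∑ k, u k * v k + ∑ k, v k ^ 2 := by
    unfold ConfinedGas.sq
    rw [Finset.mul_sum, ← sum_add_distrib, ← sum_add_distrib]
    refine sum_congr rfl fun k _ => ?_
    rw [hu, hv]
    simp only [pt]
    ring
  rw [h4]
  nlinarith

/-- The width of the corridors. -/
noncomputable def Rc (a L : ℝ) : ℝ := L + 2 * a

/-- Radius, length and activity. -/
structure Pn (a L c : ℝ) : Prop where
  ha : 0 < a
  hL : 0 < L
  hc : 0 ≤ c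

theorem Pn.R_pos {a L c : ℝ} (P : Pn a L c) : 0 < Rc a L := by
  have h1 := P.ha
  have h2 := P.hL
  unfold Rc
  linarith

theorem Pn.a_le {a L c : ℝ} (P : Pn a L c) : (2 * a) ^ 2 ≤ Rc a L ^ 2 := by
  have h1 := P.ha
  have h2 := P.hL
  unfold Rc
  exact pow_le_pow_left₀ (by linarith) (by linarith) 2

/-- No interaction between distant spheres and needles. -/
theorem not_Hit {a L c : ℝ} (P : Pn a L c) {x y g : Fin d → ℝ}
    (h : Rc a L ^ 2 ≤ ConfinedGas.sq x y) : ¬ Hit a L x y g := by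
  intro hh
  have h1 := sq_of_Hit P.ha P.hL.le hh
  have h2 := P.ha
  have h3 := P.hL
  have h4 : (L / 2 + a) ^ 2 ≤ Rc a L ^ 2 := by
    unfold Rc
    exact pow_le_pow_left₀ (by linarith) (by linarith) 2
  linarith

/-- The unit ball. -/
def bl (d : ℕ) : Set (Fin d → ℝ) := {g | ∑ k, g k ^ 2 ≤ 1}

theorem measurableSet_bl : MeasurableSet (bl d) := by
  unfold bl
  refine measurableSet_le ?_ measurable_const
  fun_prop

theorem bl_subset : bl d ⊆ Set.pi Set.univ fun _ => Set.Icc (-1 : ℝ) 1 := by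
  intro g hg k _
  have h1 : g k ^ 2 ≤ ∑ k, g k ^ 2 :=
    single_le_sum (f := fun k => g k ^ 2) (fun _ _ => sq_nonneg _) (mem_univ k)
  have h2 : g k ^ 2 ≤ 1 ^ 2 := by
    rw [one_pow]
    exact h1.trans hg
  exact abs_le.1 (abs_le_of_sq_le_sq h2 zero_le_one)

theorem volume_bl_ne : volume (bl d) ≠ ⊤ := by
  refine ne_top_of_le_ne_top ?_ (measure_mono bl_subset)
  rw [volume_pi_pi]
  simp

theorem kap_eq (d : ℕ) : kap d = (volume (bl d)).toReal := rfl

theorem kap_nonneg (d : ℕ) : 0 ≤ kap d := ENNReal.toReal_nonneg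

theorem kap_pos (d : ℕ) : 0 < kap d := by
  rw [kap_eq]
  refine ENNReal.toReal_pos ?_ volume_bl_ne
  have h1 : IsOpen {g : Fin d → ℝ | ∑ k, g k ^ 2 < 1} := by
    refine isOpen_lt ?_ continuous_const
    fun_prop
  have h2 : ({g : Fin d → ℝ | ∑ k, g k ^ 2 < 1}).Nonempty := ⟨0, by simp⟩
  have h3 := h1.measure_pos volume h2
  refine (lt_of_lt_of_le h3 (measure_mono fun g (hg : ∑ k, g k ^ 2 < 1) => ?_)).ne'
  exact hg.le

/-- The needles with centre in `A` which meet none of the spheres `x`. -/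
def FN (a L : ℝ) {ι : Type} (A : Set (Fin d → ℝ)) (x : ι → Fin d → ℝ) :
    Set ((Fin d → ℝ) × (Fin d → ℝ)) :=
  {q | q.1 ∈ A ∧ q.2 ∈ bl d ∧ ∀ i, ¬ Hit a L (x i) q.1 q.2}

/-- Weight of the needles, in the presence of the spheres `x`. -/
noncomputable def wN (a L c : ℝ) {ι : Type} (A : Set (Fin d → ℝ)) (x : ι → Fin d → ℝ) : ENNReal :=
  ex (c * (volume (FN a L A x)).toReal)

variable {a L c : ℝ}

theorem FN_subset {ι : Type} (A : Set (Fin d → ℝ)) (x : ι → Fin d → ℝ) :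
    FN a L A x ⊆ A ×ˢ bl d := fun _ hq => ⟨hq.1, hq.2.1⟩

theorem volume_FN_le {ι : Type} (A : Set (Fin d → ℝ)) (x : ι → Fin d → ℝ) :
    volume (FN a L A x) ≤ volume A * volume (bl d) := by
  refine (measure_mono (FN_subset A x)).trans ?_
  rw [Measure.volume_eq_prod, Measure.prod_prod]

theorem volume_FN_ne {ι : Type} {A : Set (Fin d → ℝ)} (hA : volume A ≠ ⊤)
    (x : ι → Fin d → ℝ) : volume (FN a L A x) ≠ ⊤ :=
  ne_top_of_le_ne_top (ENNReal.mul_ne_top hA volume_bl_ne) (volume_FN_le A x)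

theorem FN_mono {ι : Type} {A A' : Set (Fin d → ℝ)} (h : A ⊆ A') (x : ι → Fin d → ℝ) :
    FN a L A x ⊆ FN a L A' x := fun _ hq => ⟨h hq.1, hq.2⟩

theorem measurableSet_FN2 (hL : 0 < L) {ι : Type} [Fintype ι] {A : Set (Fin d → ℝ)}
    (hA : MeasurableSet A) : MeasurableSet
      {p : (ι → Fin d → ℝ) × ((Fin d → ℝ) × (Fin d → ℝ)) | p.2 ∈ FN a L A p.1} := by
  have e : {p : (ι → Fin d → ℝ) × ((Fin d → ℝ) × (Fin d → ℝ)) | p.2 ∈ FN a L A p.1} =
      ((fun p => p.2.1) ⁻¹' A) ∩ (((fun p => p.2.2) ⁻¹' bl d) ∩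
        ⋂ i, (fun p : (ι → Fin d → ℝ) × ((Fin d → ℝ) × (Fin d → ℝ)) => (p.1 i, p.2)) ⁻¹'
          {p : (Fin d → ℝ) × ((Fin d → ℝ) × (Fin d → ℝ)) | Hit a L p.1 p.2.1 p.2.2}ᶜ) := by
    ext p
    simp only [FN, Set.mem_ofPred_eq, Set.mem_inter_iff, Set.mem_preimage, Set.mem_iInter,
      Set.mem_compl_iff]
  rw [e]
  refine ((measurable_fst.comp measurable_snd) hA).inter
    (((measurable_snd.comp measurable_snd) measurableSet_bl).inter
    (MeasurableSet.iInter fun i => ?_))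
  have hm : Measurable fun p : (ι → Fin d → ℝ) × ((Fin d → ℝ) × (Fin d → ℝ)) =>
      (p.1 i, p.2) := ((measurable_pi_apply i).comp measurable_fst).prodMk measurable_snd
  exact hm (measurableSet_Hit hL a).compl

theorem measurableSet_FN (hL : 0 < L) {ι : Type} [Fintype ι] {A : Set (Fin d → ℝ)}
    (hA : MeasurableSet A) (x : ι → Fin d → ℝ) : MeasurableSet (FN a L A x) := by
  have h := measurableSet_FN2 (a := a) (ι := ι) hL hA
  have hm : Measurable fun q : (Fin d → ℝ) × (Fin d → ℝ) => (x, q) :=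
    measurable_const.prodMk measurable_id
  exact hm h

theorem measurable_ex : Measurable ex := by
  unfold ex
  exact ENNReal.measurable_ofReal.comp Real.measurable_exp

theorem measurable_wN (hL : 0 < L) {ι : Type} [Fintype ι] {A : Set (Fin d → ℝ)}
    (hA : MeasurableSet A) : Measurable fun x : ι → Fin d → ℝ => wN a L c A x := by
  unfold wN
  have h3 := measurable_measure_prodMk_left
    (ν := (volume : Measure ((Fin d → ℝ) × (Fin d → ℝ)))) (measurableSet_FN2 (a := a) (ι := ι) hL hA)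
  exact measurable_ex.comp (h3.ennreal_toReal.const_mul c)

theorem FN_equiv {ι κ : Type} (e : ι ≃ κ) (A : Set (Fin d → ℝ)) (x : κ → Fin d → ℝ) :
    FN a L A (fun i => x (e i)) = FN a L A x := by
  ext q
  simp only [FN, Set.mem_ofPred_eq]
  constructor
  · rintro ⟨h1, h2, h⟩
    refine ⟨h1, h2, fun k => ?_⟩
    obtain ⟨i, rfl⟩ := e.surjective k
    exact h i
  · rintro ⟨h1, h2, h⟩
    exact ⟨h1, h2, fun i => h (e i)⟩

theorem wN_mono (P : Pn a L c) {ι : Type} {A A' : Set (Fin d → ℝ)} (h : A ⊆ A')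
    (hA : volume A' ≠ ⊤) (x : ι → Fin d → ℝ) : wN a L c A x ≤ wN a L c A' x := by
  unfold wN
  rw [ex_le_ex]
  exact mul_le_mul_of_nonneg_left (ENNReal.toReal_mono (volume_FN_ne hA x)
    (measure_mono (FN_mono h x))) P.hc

theorem one_le_wN (P : Pn a L c) {ι : Type} (A : Set (Fin d → ℝ)) (x : ι → Fin d → ℝ) :
    1 ≤ wN a L c A x := by
  unfold wN
  rw [one_le_ex]
  exact mul_nonneg P.hc ENNReal.toReal_nonneg

theorem wN_le (P : Pn a L c) {ι : Type} {A : Set (Fin d → ℝ)} (hA : volume A ≠ ⊤)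
    (x : ι → Fin d → ℝ) : wN a L c A x ≤ ex (c * ((volume A).toReal * kap d)) := by
  unfold wN
  rw [ex_le_ex]
  have h1 := ENNReal.toReal_mono (ENNReal.mul_ne_top hA volume_bl_ne) (volume_FN_le (a := a) (L := L) A x)
  rw [ENNReal.toReal_mul, ← kap_eq] at h1
  exact mul_le_mul_of_nonneg_left h1 P.hc

theorem wN_empty {ι : Type} [IsEmpty ι] (A : Set (Fin d → ℝ))
    (x : ι → Fin d → ℝ) : wN a L c A x = ex (c * ((volume A).toReal * kap d)) := by
  unfold wN
  have e : FN a L A x = A ×ˢ bl d := by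
    ext q
    simp only [FN, Set.mem_ofPred_eq, IsEmpty.forall_iff, and_true]
    rfl
  rw [e, Measure.volume_eq_prod, Measure.prod_prod, ENNReal.toReal_mul, ← kap_eq]

/-- Separated regions. -/
theorem wN_split (P : Pn a L c) {ι : Type} [Fintype ι] (p : ι → Prop)
    [DecidablePred p] {R1 R2 : Set (Fin d → ℝ)} (h2 : MeasurableSet R2)
    (hv1 : volume R1 ≠ ⊤) (hv2 : volume R2 ≠ ⊤)
    (hfar : Far (Rc a L) R1 R2) (x : ι → Fin d → ℝ) (hp : ∀ i, p i → x i ∈ R1)
    (hp' : ∀ i, ¬ p i → x i ∈ R2) :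
    wN a L c R1 (fun i : {i // p i} => x i) * wN a L c R2 (fun i : {i // ¬ p i} => x i) ≤
      wN a L c (R1 ∪ R2) x := by
  unfold wN
  rw [← ex_add, ex_le_ex, ← mul_add]
  refine mul_le_mul_of_nonneg_left ?_ P.hc
  have hdis := hfar.disjoint P.R_pos
  have hsub : FN a L R1 (fun i : {i // p i} => x i) ∪ FN a L R2 (fun i : {i // ¬ p i} => x i) ⊆
      FN a L (R1 ∪ R2) x := by
    rintro q (⟨hq1, hq2, hq3⟩ | ⟨hq1, hq2, hq3⟩)
    · refine ⟨Or.inl hq1, hq2, fun i => ?_⟩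
      by_cases hi : p i
      · exact hq3 ⟨i, hi⟩
      · refine not_Hit P ?_
        rw [sq_comm]
        exact hfar _ hq1 _ (hp' i hi)
    · refine ⟨Or.inr hq1, hq2, fun i => ?_⟩
      by_cases hi : p i
      · exact not_Hit P (hfar _ (hp i hi) _ hq1)
      · exact hq3 ⟨i, hi⟩
  have hd2 : Disjoint (FN a L R1 (fun i : {i // p i} => x i))
      (FN a L R2 (fun i : {i // ¬ p i} => x i)) := by
    rw [Set.disjoint_left]
    intro q hq1 hq2
    exact Set.disjoint_left.1 hdis hq1.1 hq2.1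
  have h3 := measure_union (μ := (volume : Measure ((Fin d → ℝ) × (Fin d → ℝ)))) hd2
    (measurableSet_FN (a := a) P.hL h2 _)
  have hne : volume (R1 ∪ R2) ≠ ⊤ :=
    ne_top_of_le_ne_top (ENNReal.add_ne_top.2 ⟨hv1, hv2⟩) (measure_union_le _ _)
  have h4 := measure_mono (μ := volume) hsub
  rw [h3] at h4
  have h5 := ENNReal.toReal_mono (volume_FN_ne hne x) h4
  rwa [ENNReal.toReal_add (volume_FN_ne hv1 _) (volume_FN_ne hv2 _)] at h5

/-- Lower bound for the weight. -/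
theorem wN_ge (P : Pn a L c) {ι : Type} [Fintype ι] {A : Set (Fin d → ℝ)}
    (hA : volume A ≠ ⊤) (x : ι → Fin d → ℝ) :
    ex (c * ((volume A).toReal * kap d)) ≤
      ex (Fintype.card ι * (c * ((2 * Rc a L) ^ d * kap d))) * wN a L c A x := by
  unfold wN
  have hR := P.R_pos
  rw [← ex_add, ex_le_ex]
  have hsub : A ×ˢ bl d ⊆ FN a L A x ∪ ⋃ i, ({y | ConfinedGas.sq (x i) y < Rc a L ^ 2} ×ˢ bl d) := by
    rintro q ⟨hq1, hq2⟩
    by_cases h : ∀ i, ¬ Hit a L (x i) q.1 q.2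
    · exact Or.inl ⟨hq1, hq2, h⟩
    · right
      push Not at h
      obtain ⟨i, hi⟩ := h
      refine Set.mem_iUnion.2 ⟨i, ?_, hq2⟩
      by_contra hcon
      rw [Set.mem_ofPred_eq, not_lt] at hcon
      exact not_Hit P hcon hi
  have h1 := measure_mono (μ := (volume : Measure ((Fin d → ℝ) × (Fin d → ℝ)))) hsub
  have h2 : volume (⋃ i, ({y | ConfinedGas.sq (x i) y < Rc a L ^ 2} ×ˢ bl d)) ≤
      (Fintype.card ι : ENNReal) * (ENNReal.ofReal (2 * Rc a L) ^ d * volume (bl d)) := by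
    refine (measure_iUnion_fintype_le _ _).trans ?_
    refine (sum_le_card_nsmul _ _ (ENNReal.ofReal (2 * Rc a L) ^ d * volume (bl d))
      fun i _ => ?_).trans ?_
    · rw [Measure.volume_eq_prod, Measure.prod_prod]
      exact mul_le_mul' (near_le volume le_rfl (x i) hR) le_rfl
    · rw [card_univ, nsmul_eq_mul]
  have h3 : volume A * volume (bl d) ≤ volume (FN a L A x) +
      (Fintype.card ι : ENNReal) * (ENNReal.ofReal (2 * Rc a L) ^ d * volume (bl d)) := by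
    refine le_trans ?_ ((h1.trans (measure_union_le _ _)).trans (add_le_add le_rfl h2))
    rw [Measure.volume_eq_prod, Measure.prod_prod]
  have hne2 : (Fintype.card ι : ENNReal) * (ENNReal.ofReal (2 * Rc a L) ^ d * volume (bl d)) ≠ ⊤ :=
    ENNReal.mul_ne_top (ENNReal.natCast_ne_top _)
      (ENNReal.mul_ne_top (ENNReal.pow_ne_top ENNReal.ofReal_ne_top) volume_bl_ne)
  have h4 := ENNReal.toReal_mono (ENNReal.add_ne_top.2 ⟨volume_FN_ne hA x, hne2⟩) h3
  rw [ENNReal.toReal_add (volume_FN_ne hA x) hne2, ENNReal.toReal_mul, ENNReal.toReal_mul,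
    ENNReal.toReal_mul, ENNReal.toReal_natCast, ENNReal.toReal_pow,
    ENNReal.toReal_ofReal (by positivity), ← kap_eq] at h4
  have h5 := mul_le_mul_of_nonneg_left h4 P.hc
  calc c * ((volume A).toReal * kap d) ≤ c * ((volume (FN a L A x)).toReal +
        Fintype.card ι * ((2 * Rc a L) ^ d * kap d)) := h5
    _ = _ := by ring

theorem wN_cons (P : Pn a L c) {A : Set (Fin d → ℝ)} (hA : volume A ≠ ⊤) (N : ℕ)
    (y : Fin d → ℝ) (u : Fin N → Fin d → ℝ) :
    wN a L c A (Fin.cons y u : Fin (N + 1) → Fin d → ℝ) ≤ wN a L c A u := by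
  unfold wN
  rw [ex_le_ex]
  refine mul_le_mul_of_nonneg_left (ENNReal.toReal_mono (volume_FN_ne hA u)
    (measure_mono ?_)) P.hc
  rintro q ⟨h1, h2, h3⟩
  refine ⟨h1, h2, fun i => ?_⟩
  have := h3 i.succ
  simpa using this

theorem Hit_shift (v : Fin d → ℝ) {x y g : Fin d → ℝ} :
    Hit a L (x + v) (y + v) g ↔ Hit a L x y g := by
  unfold Hit pt
  have : ∀ s : ℝ, ∑ k, ((x + v) k - ((y + v) k + s * (g k / nrm g))) ^ 2 =
      ∑ k, (x k - (y k + s * (g k / nrm g))) ^ 2 := by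
    intro s
    refine sum_congr rfl fun k _ => ?_
    simp only [Pi.add_apply]
    ring
  simp only [this]

theorem wN_shift (hL : 0 < L) (v : Fin d → ℝ) {ι : Type} [Fintype ι] {A : Set (Fin d → ℝ)}
    (hA : MeasurableSet A) (x : ι → Fin d → ℝ) :
    wN a L c ((fun y => y + v) ⁻¹' A) x = wN a L c A (fun i => x i + v) := by
  unfold wN
  congr 3
  have hmp : MeasurePreserving (fun q : (Fin d → ℝ) × (Fin d → ℝ) => (q.1 + v, q.2))
      volume volume := by
    have h1 : MeasurePreserving (fun y : Fin d → ℝ => y + v) volume volume :=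
      ⟨measurable_add_const v, map_add_right_eq_self volume v⟩
    exact h1.prod (MeasurePreserving.id volume)
  rw [← hmp.measure_preimage (measurableSet_FN (a := a) hL hA _).nullMeasurableSet]
  congr 1
  ext q
  simp only [FN, Set.mem_ofPred_eq, Set.mem_preimage, Hit_shift]

end Pool.Agent.Ndc
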