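import Pool.Agent.Lib.MP_09cbbd_ndc.NcA

/-!
# The canonical partition functions of spheres and needles in a region
-/

set_option autoImplicit false

namespace Pool.Agent.Ndc

open MeasureTheory Finset Filter Topology Pool.Agent.StableGas Pool.Agent.SquareWellGas
  Pool.Agent.SquareWell Pool.Agent.NeedleGas Pool.Agent.ConfinedGas Pool.Agent.Mix.CanM

variable {d : ℕ}

/-- The partition function of labelled spheres. -/
noncomputable def WN (a L c : ℝ) (ι : Type) [Fintype ι] (A : Set (Fin d → ℝ)) : ENNReal :=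
  ∫⁻ x in Cf (2 * a) ι A, wN a L c A x

variable {a L c : ℝ}

theorem WN_congr (hL : 0 < L) {ι κ : Type} [Fintype ι] [Fintype κ] (e : ι ≃ κ)
    {A : Set (Fin d → ℝ)} (hA : MeasurableSet A) : WN a L c ι A = WN a L c κ A := by
  unfold WN
  have h := volume_measurePreserving_piCongrLeft (fun _ : κ => Fin d → ℝ) e
  have hx : ∀ x : ι → Fin d → ℝ, (fun i => (MeasurableEquiv.piCongrLeft
      (fun _ : κ => Fin d → ℝ) e) x (e i)) = x := by
    intro x
    funext i
    exact Equiv.piCongrLeft_apply_apply (fun _ : κ => Fin d → ℝ) e x i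
  rw [← h.setLIntegral_comp_preimage (measurableSet_Cf (2 * a) κ hA) (measurable_wN hL hA)]
  have e1 : (MeasurableEquiv.piCongrLeft (fun _ : κ => Fin d → ℝ) e) ⁻¹' Cf (2 * a) κ A =
      Cf (2 * a) ι A := by
    ext x
    rw [Set.mem_preimage, ← Cf_equiv (2 * a) e A, hx]
  rw [e1]
  refine lintegral_congr fun x => ?_
  unfold wN
  rw [← FN_equiv e, hx]

theorem WN_inst {ι : Type} (i1 i2 : Fintype ι) (A : Set (Fin d → ℝ)) :
    @WN d a L c ι i1 A = @WN d a L c ι i2 A := by
  rw [Subsingleton.elim i1 i2]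

theorem WN_mono (P : Pn a L c) {ι : Type} [Fintype ι] {A A' : Set (Fin d → ℝ)} (h : A ⊆ A')
    (hA : volume A' ≠ ⊤) : WN a L c ι A ≤ WN a L c ι A' :=
  (lintegral_mono fun x => wN_mono P h hA x).trans (lintegral_mono_set (Cf_mono (2 * a) ι h))

theorem WN_le (P : Pn a L c) {ι : Type} [Fintype ι] {A : Set (Fin d → ℝ)} (hA : volume A ≠ ⊤) :
    WN a L c ι A ≤ ex (c * ((volume A).toReal * kap d)) * volume (Cf (2 * a) ι A) := by
  unfold WN
  rw [← setLIntegral_const]
  exact lintegral_mono fun x => wN_le P hA x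

theorem WN_ne_top (P : Pn a L c) {ι : Type} [Fintype ι] {A : Set (Fin d → ℝ)}
    (hA : volume A ≠ ⊤) : WN a L c ι A ≠ ⊤ :=
  ne_top_of_le_ne_top (ENNReal.mul_ne_top (ex_ne_top _) (volume_Cf_lt_top (2 * a) ι hA))
    (WN_le P hA)

theorem WN_ge (P : Pn a L c) {ι : Type} [Fintype ι] {A : Set (Fin d → ℝ)}
    (hAm : MeasurableSet A) (hA : volume A ≠ ⊤) :
    ex (c * ((volume A).toReal * kap d)) * volume (Cf (2 * a) ι A) ≤
      ex (Fintype.card ι * (c * ((2 * Rc a L) ^ d * kap d))) * WN a L c ι A := by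
  unfold WN
  rw [← setLIntegral_const, ← lintegral_const_mul _ (measurable_wN P.hL hAm)]
  exact lintegral_mono fun x => wN_ge P hA x

theorem piece_le (P : Pn a L c) {ι : Type}
    [Fintype ι] (p : ι → Prop) [DecidablePred p]
    {R1 R2 : Set (Fin d → ℝ)} (h1 : MeasurableSet R1) (h2 : MeasurableSet R2)
    (hv1 : volume R1 ≠ ⊤) (hv2 : volume R2 ≠ ⊤)
    (hfar : Far (Rc a L) R1 R2) : WN a L c {i // p i} R1 * WN a L c {i // ¬ p i} R2 ≤
      ∫⁻ x in {x : ι → Fin d → ℝ | x ∈ Cf (2 * a) ι (R1 ∪ R2) ∧ ∀ i, x i ∈ R1 ↔ p i},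
        wN a L c (R1 ∪ R2) x := by
  have hmp := volume_preserving_piEquivPiSubtypeProd (fun _ : ι => Fin d → ℝ) p
  obtain ⟨T, hT⟩ : ∃ T : Set (({i // p i} → Fin d → ℝ) × ({i // ¬ p i} → Fin d → ℝ)),
      T = Cf (2 * a) {i // p i} R1 ×ˢ Cf (2 * a) {i // ¬ p i} R2 := ⟨_, rfl⟩
  have mT : MeasurableSet T := by
    rw [hT]
    exact (measurableSet_Cf (2 * a) _ h1).prod (measurableSet_Cf (2 * a) _ h2)
  have hdis := hfar.disjoint P.R_pos
  have ha := P.a_le
  have hmem : ∀ x : ι → Fin d → ℝ,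
      x ∈ (MeasurableEquiv.piEquivPiSubtypeProd (fun _ : ι => Fin d → ℝ) p) ⁻¹' T →
      (∀ i, p i → x i ∈ R1) ∧ (∀ i, ¬ p i → x i ∈ R2) := by
    intro x hx
    rw [hT] at hx
    obtain ⟨⟨g1, g2⟩, ⟨g3, g4⟩⟩ := hx
    exact ⟨fun i hi => g1 ⟨i, hi⟩, fun i hi => g3 ⟨i, hi⟩⟩
  have e : (MeasurableEquiv.piEquivPiSubtypeProd (fun _ : ι => Fin d → ℝ) p) ⁻¹' T ⊆
      {x : ι → Fin d → ℝ | x ∈ Cf (2 * a) ι (R1 ∪ R2) ∧ ∀ i, x i ∈ R1 ↔ p i} := by
    intro x hx
    obtain ⟨a1, a2⟩ := hmem x hx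
    rw [hT] at hx
    obtain ⟨⟨g1, g2⟩, ⟨g3, g4⟩⟩ := hx
    refine ⟨⟨fun i => ?_, fun i j hij => ?_⟩, fun i => ⟨fun hi => ?_, a1 i⟩⟩
    · by_cases hi : p i
      · exact Or.inl (a1 i hi)
      · exact Or.inr (a2 i hi)
    · by_cases hi : p i <;> by_cases hj : p j
      · exact g2 ⟨i, hi⟩ ⟨j, hj⟩ fun hh => hij (congrArg Subtype.val hh)
      · exact ha.trans (hfar _ (a1 i hi) _ (a2 j hj))
      · rw [sq_comm]
        exact ha.trans (hfar _ (a1 j hj) _ (a2 i hi))
      · exact g4 ⟨i, hi⟩ ⟨j, hj⟩ fun hh => hij (congrArg Subtype.val hh)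
    · by_contra hp
      exact Set.disjoint_left.1 hdis hi (a2 i hp)
  refine le_trans ?_ (lintegral_mono_set e)
  have mE : MeasurableSet ((MeasurableEquiv.piEquivPiSubtypeProd (fun _ : ι => Fin d → ℝ) p) ⁻¹'
      T) := (MeasurableEquiv.measurable _) mT
  refine le_trans ?_ (setLIntegral_mono' (f := fun x : ι → Fin d → ℝ =>
    (fun q : ({i // p i} → Fin d → ℝ) × ({i // ¬ p i} → Fin d → ℝ) =>
      wN a L c R1 q.1 * wN a L c R2 q.2)
        ((MeasurableEquiv.piEquivPiSubtypeProd (fun _ : ι => Fin d → ℝ) p) x)) mE fun x hx => ?_)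
  · have hmeas : Measurable fun q : ({i // p i} → Fin d → ℝ) × ({i // ¬ p i} → Fin d → ℝ) =>
        wN a L c R1 q.1 * wN a L c R2 q.2 :=
      ((measurable_wN P.hL h1).comp measurable_fst).mul
        ((measurable_wN P.hL h2).comp measurable_snd)
    rw [hmp.setLIntegral_comp_preimage mT hmeas, hT, Measure.volume_eq_prod,
      ← Measure.prod_restrict,
      lintegral_prod_mul (measurable_wN P.hL h1).aemeasurable
        (measurable_wN P.hL h2).aemeasurable]
    exact le_of_eq rfl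
  · obtain ⟨a1, a2⟩ := hmem x hx
    exact wN_split P p h2 hv1 hv2 hfar x a1 a2

theorem WN_union (P : Pn a L c) (N k : ℕ)
    {R1 R2 : Set (Fin d → ℝ)} (h1 : MeasurableSet R1) (h2 : MeasurableSet R2)
    (hv1 : volume R1 ≠ ⊤) (hv2 : volume R2 ≠ ⊤)
    (hfar : Far (Rc a L) R1 R2) :
    (N.choose k : ENNReal) * (WN a L c (Fin k) R1 * WN a L c (Fin (N - k)) R2) ≤
      WN a L c (Fin N) (R1 ∪ R2) := by
  classical
  have hm : ∀ A : Finset (Fin N), MeasurableSet
      {x : Fin N → Fin d → ℝ | x ∈ Cf (2 * a) (Fin N) (R1 ∪ R2) ∧ ∀ i, x i ∈ R1 ↔ i ∈ A} := by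
    intro A
    have h3 : {x : Fin N → Fin d → ℝ | x ∈ Cf (2 * a) (Fin N) (R1 ∪ R2) ∧ ∀ i, x i ∈ R1 ↔ i ∈ A} =
        Cf (2 * a) (Fin N) (R1 ∪ R2) ∩ ⋂ i, {x : Fin N → Fin d → ℝ | x i ∈ R1 ↔ i ∈ A} := by
      ext x; simp
    rw [h3]
    refine (measurableSet_Cf (2 * a) _ (h1.union h2)).inter (MeasurableSet.iInter fun i => ?_)
    by_cases hi : i ∈ A
    · simp only [hi, iff_true]
      exact measurable_pi_apply i h1
    · simp only [hi, iff_false]
      exact (measurable_pi_apply i h1).compl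
  have hd : Set.PairwiseDisjoint (↑((univ : Finset (Fin N)).powersetCard k)) (fun A : Finset (Fin N) =>
      {x : Fin N → Fin d → ℝ | x ∈ Cf (2 * a) (Fin N) (R1 ∪ R2) ∧ ∀ i, x i ∈ R1 ↔ i ∈ A}) := by
    intro A _ B _ hAB
    rw [Function.onFun, Set.disjoint_left]
    rintro x ⟨_, h1⟩ ⟨_, h2⟩
    apply hAB
    ext i
    rw [← h1, ← h2]
  have h3 := lintegral_biUnion_finset (μ := volume) (s := (univ : Finset (Fin N)).powersetCard k)
    hd (fun A _ => hm A) (fun x : Fin N → Fin d → ℝ => wN a L c (R1 ∪ R2) x)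
  have h4 : ∀ A ∈ (univ : Finset (Fin N)).powersetCard k,
      WN a L c (Fin k) R1 * WN a L c (Fin (N - k)) R2 ≤
      ∫⁻ x in {x : Fin N → Fin d → ℝ | x ∈ Cf (2 * a) (Fin N) (R1 ∪ R2) ∧ ∀ i, x i ∈ R1 ↔ i ∈ A},
        wN a L c (R1 ∪ R2) x := by
    intro A hA
    rw [mem_powersetCard] at hA
    have c1 : Fintype.card {i // i ∈ A} = k := by rw [Fintype.card_coe]; exact hA.2
    have c2 : Fintype.card {i // ¬ i ∈ A} = N - k := by
      have h5 := Fintype.card_subtype_compl (fun i => i ∈ A)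
      rw [c1, Fintype.card_fin] at h5
      exact h5
    rw [← WN_congr P.hL (Fintype.equivFinOfCardEq c1) h1,
      ← WN_congr P.hL (Fintype.equivFinOfCardEq c2) h2]
    have h6 := piece_le P (fun i => i ∈ A) h1 h2 hv1 hv2 hfar
    refine le_trans (le_of_eq ?_) h6
    congr 1
    exact WN_inst _ _ R1
  have h5 := Finset.card_nsmul_le_sum _ _ _ h4
  rw [card_powersetCard, card_univ, Fintype.card_fin, nsmul_eq_mul] at h5
  refine h5.trans (h3.symm.le.trans (lintegral_mono_set ?_))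
  intro x hx
  simp only [Set.mem_iUnion] at hx
  obtain ⟨A, _, hx, _⟩ := hx
  exact hx

variable (a L c) in
/-- Canonical partition function of a region. -/
noncomputable def zN (A : Set (Fin d → ℝ)) (N : ℕ) : ℝ :=
  ((N.factorial : ℝ))⁻¹ * (WN a L c (Fin N) A).toReal

theorem zN_nonneg (A : Set (Fin d → ℝ)) (N : ℕ) : 0 ≤ zN a L c A N :=
  mul_nonneg (by positivity) ENNReal.toReal_nonneg

theorem zN_mono (P : Pn a L c) {A A' : Set (Fin d → ℝ)} (h : A ⊆ A') (hA : volume A' ≠ ⊤)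
    (N : ℕ) : zN a L c A N ≤ zN a L c A' N := by
  unfold zN
  refine mul_le_mul_of_nonneg_left ?_ (by positivity)
  exact ENNReal.toReal_mono (WN_ne_top P hA) (WN_mono P h hA)

theorem zN_union_ge (P : Pn a L c) {R1 R2 : Set (Fin d → ℝ)} (h : Far (Rc a L) R1 R2)
    (h1 : MeasurableSet R1) (h2 : MeasurableSet R2) (f : volume (R1 ∪ R2) ≠ ⊤) (k l : ℕ) :
    zN a L c R1 k * zN a L c R2 l ≤ zN a L c (R1 ∪ R2) (k + l) := by
  have f1 : volume R1 ≠ ⊤ := ne_top_of_le_ne_top f (measure_mono Set.subset_union_left)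
  have f2 : volume R2 ≠ ⊤ := ne_top_of_le_ne_top f (measure_mono Set.subset_union_right)
  have h4 := WN_union P (k + l) k h1 h2 f1 f2 h
  rw [Nat.add_sub_cancel_left] at h4
  have h5 := ENNReal.toReal_mono (WN_ne_top P f) h4
  rw [ENNReal.toReal_mul, ENNReal.toReal_mul, ENNReal.toReal_natCast] at h5
  have h6 : (((k + l).choose k : ℕ) : ℝ) * k.factorial * l.factorial = (k + l).factorial := by
    have := Nat.choose_mul_factorial_mul_factorial (show k ≤ k + l by omega)
    rw [Nat.add_sub_cancel_left] at this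
    exact_mod_cast this
  unfold zN
  have p1 : (0 : ℝ) < k.factorial := by positivity
  have p2 : (0 : ℝ) < l.factorial := by positivity
  have p3 : (0 : ℝ) < (k + l).factorial := by positivity
  rw [inv_mul_eq_div, inv_mul_eq_div, inv_mul_eq_div, div_mul_div_comm,
    div_le_div_iff₀ (by positivity) p3, ← h6]
  calc (WN a L c (Fin k) R1).toReal * (WN a L c (Fin l) R2).toReal *
        ((((k + l).choose k : ℕ) : ℝ) * k.factorial * l.factorial)
      = ((((k + l).choose k : ℕ) : ℝ) * ((WN a L c (Fin k) R1).toReal *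
        (WN a L c (Fin l) R2).toReal)) * (k.factorial * l.factorial) := by ring
    _ ≤ _ := mul_le_mul_of_nonneg_right h5 (by positivity)

theorem WN_zero (A : Set (Fin d → ℝ)) :
    WN a L c (Fin 0) A = ex (c * ((volume A).toReal * kap d)) := by
  have e : Cf (2 * a) (Fin 0) A = Set.univ := by
    ext x
    simp only [Cf, Set.mem_ofPred_eq, Set.mem_univ, iff_true]
    exact ⟨fun i => i.elim0, fun i => i.elim0⟩
  unfold WN
  simp only [e, wN_empty, Measure.restrict_univ, lintegral_const]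
  have := volume_pi_pi (fun _ : Fin 0 => (Set.univ : Set (Fin d → ℝ)))
  simp at this
  rw [this, mul_one]

theorem zN_zero (A : Set (Fin d → ℝ)) :
    zN a L c A 0 = Real.exp (c * ((volume A).toReal * kap d)) := by
  unfold zN
  rw [WN_zero, ex_toReal]
  simp

theorem one_le_zN (P : Pn a L c) (A : Set (Fin d → ℝ)) : 1 ≤ zN a L c A 0 := by
  rw [zN_zero, Real.one_le_exp_iff]
  exact mul_nonneg P.hc (mul_nonneg ENNReal.toReal_nonneg (kap_nonneg d))

theorem zN_prod_le (P : Pn a L c) {κ : Type} [DecidableEq κ] (B : κ → Set (Fin d → ℝ))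
    (hB : ∀ v w, v ≠ w → Far (Rc a L) (B v) (B w)) (m : ∀ v, MeasurableSet (B v))
    (f : ∀ v, volume (B v) ≠ ⊤) (y : ℕ → ℝ) (hy : ∀ v n, y n = zN a L c (B v) n) :
    ∀ (l : List ℕ) (s : Finset κ), s.card = l.length →
      (l.map y).prod ≤ zN a L c (⋃ v ∈ s, B v) l.sum := by
  intro l
  induction l with
  | nil =>
    intro s hs
    rw [List.length_nil, card_eq_zero] at hs
    simp only [List.map_nil, List.prod_nil, List.sum_nil]
    exact one_le_zN P _
  | cons c l ih =>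
    intro s hs
    rw [List.length_cons] at hs
    obtain ⟨q, s', hq, rfl, hs'⟩ := card_eq_succ.1 hs
    rw [List.map_cons, List.prod_cons, List.sum_cons, hy q c, set_biUnion_insert]
    have h1 := ih s' hs'
    have hfar : Far (Rc a L) (B q) (⋃ v ∈ s', B v) := by
      intro x hx y hy
      simp only [Set.mem_iUnion] at hy
      obtain ⟨v, hv, hy⟩ := hy
      exact hB q v (fun h => hq (h ▸ hv)) x hx y hy
    have hfin : volume (B q ∪ ⋃ v ∈ s', B v) ≠ ⊤ := by
      refine ne_top_of_le_ne_top ?_ (measure_union_le _ _)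
      exact ENNReal.add_ne_top.2 ⟨f q,
        (measure_biUnion_lt_top s'.finite_toSet fun v _ => (f v).lt_top).ne⟩
    have h2 := zN_union_ge P hfar (m q) (s'.measurableSet_biUnion fun v _ => m v) hfin c
      l.sum
    refine le_trans ?_ h2
    exact mul_le_mul_of_nonneg_left h1 (zN_nonneg _ _)

theorem zN_shift (hL : 0 < L) (v : Fin d → ℝ) {A : Set (Fin d → ℝ)}
    (hA : MeasurableSet A) (n : ℕ) : zN a L c ((fun y => y + v) ⁻¹' A) n = zN a L c A n := by
  unfold zN WN
  congr 2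
  have hmp : MeasurePreserving (fun (q : Fin n → Fin d → ℝ) (i : Fin n) => q i + v)
      volume volume :=
    measurePreserving_pi (fun _ => volume) (fun _ => volume) fun _ =>
      ⟨measurable_add_const v, map_add_right_eq_self volume v⟩
  rw [← hmp.setLIntegral_comp_preimage (measurableSet_Cf (2 * a) (Fin n) hA)
    (measurable_wN hL hA)]
  have e1 : (fun (q : Fin n → Fin d → ℝ) (i : Fin n) => q i + v) ⁻¹' Cf (2 * a) (Fin n) A =
      Cf (2 * a) (Fin n) ((fun y => y + v) ⁻¹' A) := by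
    ext x
    simp [Cf, ConfinedGas.sq]
  rw [e1]
  refine lintegral_congr fun x => ?_
  exact wN_shift hL v hA x

theorem zN_pos_iff (P : Pn a L c) {A : Set (Fin d → ℝ)}
    (hA : volume A ≠ ⊤) (N : ℕ) :
    0 < zN a L c A N ↔ 0 < cr (volume : Measure (Fin d → ℝ)) (2 * a) N A := by
  have hmC : mC (volume : Measure (Fin d → ℝ)) (2 * a) (Fin N) A = volume (Cf (2 * a) (Fin N) A) :=
    rfl
  have hne := volume_Cf_lt_top (d := d) (2 * a) (Fin N) hA
  have h1 : 0 < zN a L c A N ↔ 0 < WN a L c (Fin N) A := by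
    unfold zN
    constructor
    · intro h
      have h2 := pos_of_mul_pos_right h (by positivity)
      exact (ENNReal.toReal_pos_iff.1 h2).1
    · intro h
      have h2 := ENNReal.toReal_pos h.ne' (WN_ne_top (ι := Fin N) P hA)
      positivity
  have h2 : 0 < cr (volume : Measure (Fin d → ℝ)) (2 * a) N A ↔
      0 < volume (Cf (2 * a) (Fin N) A) := by
    unfold cr
    rw [hmC]
    constructor
    · intro h
      have h2 := pos_of_mul_pos_right h (by positivity)
      exact (ENNReal.toReal_pos_iff.1 h2).1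
    · intro h
      have h2 := ENNReal.toReal_pos h.ne' hne
      positivity
  rw [h1, h2]
  constructor
  · intro h
    by_contra hcon
    rw [not_lt, nonpos_iff_eq_zero] at hcon
    unfold WN at h
    rw [setLIntegral_measure_zero _ _ hcon] at h
    exact lt_irrefl _ h
  · intro h
    refine lt_of_lt_of_le h ?_
    unfold WN
    rw [← setLIntegral_one]
    exact lintegral_mono fun x => one_le_wN P A x

/-- Upper bound by the partition function without spheres. -/
theorem zN_le (P : Pn a L c) {A : Set (Fin d → ℝ)} (hA : volume A ≠ ⊤) (N : ℕ) :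
    zN a L c A N ≤ zN a L c A 0 * ((volume A).toReal ^ N / N.factorial) := by
  have h1 : WN a L c (Fin N) A ≤ ex (c * ((volume A).toReal * kap d)) * volume A ^ N := by
    have h0 := volume_Cf_le (2 * a) (Fin N) A
    rw [Fintype.card_fin] at h0
    exact (WN_le P hA).trans (mul_le_mul' le_rfl h0)
  have h2 := ENNReal.toReal_mono (ENNReal.mul_ne_top (ex_ne_top _) (ENNReal.pow_ne_top hA)) h1
  rw [ENNReal.toReal_mul, ENNReal.toReal_pow, ex_toReal] at h2
  rw [zN_zero]
  unfold zN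
  rw [inv_mul_eq_div, ← mul_div_assoc]
  exact div_le_div_of_nonneg_right h2 (by positivity)

/-- Lower bound by the hard-sphere gas. -/
theorem zN_ge (P : Pn a L c) {A : Set (Fin d → ℝ)}
    (hAm : MeasurableSet A) (hA : volume A ≠ ⊤) (N : ℕ) :
    zN a L c A 0 * cr (volume : Measure (Fin d → ℝ)) (2 * a) N A ≤
      Real.exp (N * (c * ((2 * Rc a L) ^ d * kap d))) * zN a L c A N := by
  have h1 := WN_ge (ι := Fin N) P hAm hA
  rw [Fintype.card_fin] at h1
  have h2 := ENNReal.toReal_mono (ENNReal.mul_ne_top (ex_ne_top _) (WN_ne_top P hA)) h1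
  rw [ENNReal.toReal_mul, ENNReal.toReal_mul, ex_toReal, ex_toReal] at h2
  rw [zN_zero]
  unfold zN cr
  have hmC : mC (volume : Measure (Fin d → ℝ)) (2 * a) (Fin N) A = volume (Cf (2 * a) (Fin N) A) :=
    rfl
  rw [hmC]
  calc Real.exp (c * ((volume A).toReal * kap d)) * (((N.factorial : ℝ))⁻¹ *
        (volume (Cf (2 * a) (Fin N) A)).toReal)
      = ((N.factorial : ℝ))⁻¹ * (Real.exp (c * ((volume A).toReal * kap d)) *
        (volume (Cf (2 * a) (Fin N) A)).toReal) := by ring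
    _ ≤ ((N.factorial : ℝ))⁻¹ * (Real.exp (N * (c * ((2 * Rc a L) ^ d * kap d))) *
        (WN a L c (Fin N) A).toReal) := mul_le_mul_of_nonneg_left h2 (by positivity)
    _ = _ := by ring

theorem WN_insert (P : Pn a L c) {A : Set (Fin d → ℝ)} (hA : MeasurableSet A)
    (hv : volume A ≠ ⊤)
    {N K' : ℕ} (hK' : ∀ n, 0 < mC (volume : Measure (Fin d → ℝ)) (2 * a) (Fin n) A → n ≤ K')
    (hN : N ≤ K') : WN a L c (Fin (N + 1)) A ≤
      (((K' - N : ℕ) : ENNReal) * ENNReal.ofReal (2 * (2 * a)) ^ d) * WN a L c (Fin N) A := by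
  have ha := P.ha
  have ha2 : 0 < 2 * a := by positivity
  have h0 : (Measure.pi fun _ : Fin N => (volume : Measure (Fin d → ℝ)))
      (SF volume (2 * a) A N (((K' - N : ℕ) : ENNReal) * ENNReal.ofReal (2 * (2 * a)) ^ d)) = 0 := by
    by_contra hcon
    have h1 := pos_chain volume le_rfl ha2 hA (K' - N) N (pos_iff_ne_zero.2 hcon)
    have h2 := hK' _ h1
    omega
  have hF : Measurable fun x : Fin (N + 1) → Fin d → ℝ =>
      (Cf (2 * a) (Fin (N + 1)) A).indicator (wN a L c A) x :=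
    (measurable_wN P.hL hA).indicator (measurableSet_Cf (2 * a) _ hA)
  have e1 : WN a L c (Fin (N + 1)) A = ∫⁻ u : Fin N → Fin d → ℝ, ∫⁻ y : Fin d → ℝ,
      (Cf (2 * a) (Fin (N + 1)) A).indicator (wN a L c A) (Fin.cons y u) := by
    unfold WN
    rw [← lintegral_indicator (measurableSet_Cf (2 * a) _ hA), lint_succ N hF]
  have e2 : ∀ u : Fin N → Fin d → ℝ, (∫⁻ y : Fin d → ℝ,
      (Cf (2 * a) (Fin (N + 1)) A).indicator (wN a L c A) (Fin.cons y u)) ≤
      (Cf (2 * a) (Fin N) A).indicator (fun u => wN a L c A u *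
        volume (A ∩ FarS (2 * a) u)) u := by
    intro u
    by_cases hu : u ∈ Cf (2 * a) (Fin N) A
    · rw [Set.indicator_of_mem hu, ← lintegral_indicator_const (hA.inter
        (measurableSet_FarS (2 * a) u))]
      refine lintegral_mono fun y => ?_
      by_cases hy : y ∈ A ∩ FarS (2 * a) u
      · have hc : (Fin.cons y u : Fin (N + 1) → Fin d → ℝ) ∈ Cf (2 * a) (Fin (N + 1)) A :=
          (cons_mem_Cf (2 * a)).2 ⟨hu, hy⟩
        rw [Set.indicator_of_mem hc, Set.indicator_of_mem hy]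
        exact wN_cons P hv N y u
      · have hc : (Fin.cons y u : Fin (N + 1) → Fin d → ℝ) ∉ Cf (2 * a) (Fin (N + 1)) A :=
          fun h => hy ((cons_mem_Cf (2 * a)).1 h).2
        rw [Set.indicator_of_notMem hc]
        exact bot_le
    · rw [Set.indicator_of_notMem hu]
      have : ∀ y : Fin d → ℝ, (Cf (2 * a) (Fin (N + 1)) A).indicator (wN a L c A)
          (Fin.cons y u : Fin (N + 1) → Fin d → ℝ) = 0 := by
        intro y
        exact Set.indicator_of_notMem (fun h => hu ((cons_mem_Cf (2 * a)).1 h).1) _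
      simp only [this, lintegral_zero, le_refl]
  rw [e1]
  refine (lintegral_mono e2).trans ?_
  rw [lintegral_indicator (measurableSet_Cf (2 * a) _ hA)]
  have h1 : ∀ᵐ u ∂((volume : Measure (Fin N → Fin d → ℝ)).restrict (Cf (2 * a) (Fin N) A)),
      wN a L c A u * volume (A ∩ FarS (2 * a) u) ≤
        (((K' - N : ℕ) : ENNReal) * ENNReal.ofReal (2 * (2 * a)) ^ d) * wN a L c A u := by
    rw [ae_restrict_iff' (measurableSet_Cf (2 * a) _ hA)]
    have h2 := measure_eq_zero_iff_ae_notMem.1 h0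
    have h2' : ∀ᵐ u ∂(volume : Measure (Fin N → Fin d → ℝ)),
      u ∉ SF volume (2 * a) A N (((K' - N : ℕ) : ENNReal) * ENNReal.ofReal (2 * (2 * a)) ^ d) := h2
    filter_upwards [h2'] with u hu huC
    have h3 : volume (A ∩ FarS (2 * a) u) ≤
        ((K' - N : ℕ) : ENNReal) * ENNReal.ofReal (2 * (2 * a)) ^ d := by
      by_contra hcon
      push Not at hcon
      exact hu ⟨huC, hcon⟩
    rw [mul_comm]
    exact mul_le_mul' h3 le_rfl
  refine (lintegral_mono_ae h1).trans ?_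
  rw [lintegral_const_mul _ (measurable_wN P.hL hA)]
  exact le_rfl

end Pool.Agent.Ndc
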