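import Pool.Agent.Lib.MP_09cbbd_ndc.NcB

/-!
# The canonical partition functions of boxes
-/

set_option autoImplicit false

namespace Pool.Agent.Ndc

open MeasureTheory Finset Filter Topology Pool.Agent.StableGas Pool.Agent.SquareWellGas
  Pool.Agent.SquareWell Pool.Agent.NeedleGas Pool.Agent.ConfinedGas Pool.Agent.Mix.CanM
  Pool.Agent.Mix

variable {d : ℕ} {a L c ℓ : ℝ}

/-- Superadditivity. -/
theorem can_super (P : Pn a L c) (hℓ : Rc a L < ℓ) (L1 k n : ℕ)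
    (l : List ℕ) (hL1 : 1 ≤ L1)
    (hkL : k * L1 ≤ n) (hl : l.length ≤ k ^ d) :
    (l.map fun N => zN a L c (Box d (L1 * ℓ - Rc a L)) N).prod ≤
      zN a L c (Box d (n * ℓ - Rc a L)) l.sum := by
  classical
  have hR := P.R_pos
  obtain ⟨R, hRe⟩ : ∃ R, R = Rc a L := ⟨_, rfl⟩
  rw [← hRe] at hR hℓ ⊢
  have hℓ0 : 0 < ℓ := by linarith
  obtain ⟨vv, hvv⟩ : ∃ vv : (Fin d → Fin k) → Fin d → ℝ, vv = fun u κ =>
    -(((u κ : ℕ) : ℝ) * (L1 * ℓ)) := ⟨_, rfl⟩
  obtain ⟨B, hB⟩ : ∃ B : (Fin d → Fin k) → Set (Fin d → ℝ), B = fun u =>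
    (fun x => x + vv u) ⁻¹' Box d (L1 * ℓ - R) := ⟨_, rfl⟩
  have hBmem : ∀ u x, x ∈ B u ↔ ∀ κ, ((u κ : ℕ) : ℝ) * (L1 * ℓ) ≤ x κ ∧
      x κ < ((u κ : ℕ) : ℝ) * (L1 * ℓ) + (L1 * ℓ - R) := by
    intro u x
    rw [hB, hvv]
    simp only [Box, Set.mem_preimage, Set.mem_ofPred_eq, Pi.add_apply, Set.mem_Ico]
    refine forall_congr' fun κ => ?_
    constructor <;> rintro ⟨h3, h4⟩ <;> constructor <;> linarith
  have h8 : (1 : ℝ) ≤ L1 := by exact_mod_cast hL1
  have hLl : 0 < (L1 : ℝ) * ℓ := by positivity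
  have hfar : ∀ u v, u ≠ v → Far R (B u) (B v) := by
    have main : ∀ u v : Fin d → Fin k, ∀ κ, u κ < v κ → ∀ x ∈ B u, ∀ y ∈ B v,
        R ≤ |x κ - y κ| := by
      intro u v κ huv x hx y hy
      rw [hBmem] at hx hy
      have h1 := (hx κ).2
      have h2 := (hy κ).1
      have h7 : ((u κ : ℕ) : ℝ) + 1 ≤ ((v κ : ℕ) : ℝ) := by
        have : (u κ : ℕ) + 1 ≤ (v κ : ℕ) := huv
        exact_mod_cast this
      have h9 : (((u κ : ℕ) : ℝ) + 1) * (L1 * ℓ) ≤ ((v κ : ℕ) : ℝ) * (L1 * ℓ) :=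
        mul_le_mul_of_nonneg_right h7 hLl.le
      rw [abs_sub_comm]
      refine le_trans ?_ (le_abs_self _)
      linarith
    intro u v huv
    refine far_of_coord hR.le fun x hx y hy => ?_
    obtain ⟨κ, hκ⟩ : ∃ κ, u κ ≠ v κ := by
      by_contra hcon
      push Not at hcon
      exact huv (funext hcon)
    rcases lt_or_gt_of_ne hκ with h1 | h1
    · exact ⟨κ, main u v κ h1 x hx y hy⟩
    · refine ⟨κ, ?_⟩
      rw [abs_sub_comm]
      exact main v u κ h1 y hy x hx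
  have hmeas : ∀ u, MeasurableSet (B u) := by
    intro u
    rw [hB]
    exact (measurable_add_const _) (measurableSet_Box _)
  have hvol : ∀ u, volume (B u) ≠ ⊤ := by
    intro u
    rw [hB]
    simp only
    rw [measure_preimage_add_right]
    exact volume_Box_ne _
  obtain ⟨s, hs1, hs2⟩ := exists_subset_card_eq (s := (univ : Finset (Fin d → Fin k)))
    (n := l.length) (by
      rw [card_univ, Fintype.card_fun, Fintype.card_fin, Fintype.card_fin]; exact hl)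
  have hfar' : ∀ u v, u ≠ v → Far (Rc a L) (B u) (B v) := by
    rw [← hRe]
    exact hfar
  have key := zN_prod_le P B hfar' hmeas hvol
    (fun N => zN a L c (Box d (L1 * ℓ - R)) N) (fun u n => by
      rw [hB]
      exact (zN_shift P.hL _ (measurableSet_Box _) _).symm) l s hs2
  refine key.trans (zN_mono P ?_ (volume_Box_ne _) _)
  intro x hx
  simp only [Set.mem_iUnion] at hx
  obtain ⟨u, _, hx⟩ := hx
  rw [hBmem] at hx
  intro κ
  have h1 := hx κ
  have hu : ((u κ : ℕ) : ℝ) + 1 ≤ k := by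
    have : (u κ : ℕ) + 1 ≤ k := (u κ).2
    exact_mod_cast this
  have h9 : (k : ℝ) * L1 ≤ n := by exact_mod_cast hkL
  have h10 : (((u κ : ℕ) : ℝ) + 1) * (L1 * ℓ) ≤ k * (L1 * ℓ) :=
    mul_le_mul_of_nonneg_right hu hLl.le
  have h11 : (k : ℝ) * (L1 * ℓ) ≤ n * ℓ := by
    rw [← mul_assoc]
    exact mul_le_mul_of_nonneg_right h9 hℓ0.le
  have h12 : 0 ≤ ((u κ : ℕ) : ℝ) * (L1 * ℓ) := by positivity
  exact ⟨by linarith [h1.1], by linarith [h1.2]⟩

/-- Partition function of a box. -/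
noncomputable def zB (d : ℕ) (a L c s : ℝ) (N : ℕ) : ℝ := zN a L c (Box d s) N

namespace Pn

variable (P : Pn a L c)

theorem Z_nonneg (s : ℝ) (N : ℕ) : 0 ≤ zB d a L c s N := zN_nonneg _ _

include P

theorem Z_mono {s t : ℝ} (h : s ≤ t) (N : ℕ) : zB d a L c s N ≤ zB d a L c t N :=
  zN_mono P (Box_mono h) (volume_Box_ne _) N

theorem Z_le (s : ℝ) (N : ℕ) : zB d a L c s N ≤
    zB d a L c s 0 * ((volume (Box d s)).toReal ^ N / N.factorial) :=
  zN_le P (volume_Box_ne _) N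

omit P in
theorem Z_zero (s : ℝ) :
    zB d a L c s 0 = Real.exp (c * ((volume (Box d s)).toReal * kap d)) := zN_zero _

theorem one_le_Z (s : ℝ) : 1 ≤ zB d a L c s 0 := one_le_zN P _

theorem Z_ge (s : ℝ) (N : ℕ) :
    zB d a L c s 0 * cr (volume : Measure (Fin d → ℝ)) (2 * a) N (Box d s) ≤
      Real.exp (N * (c * ((2 * Rc a L) ^ d * kap d))) * zB d a L c s N :=
  zN_ge P (measurableSet_Box (d := d) s) (volume_Box_ne (d := d) s) N

theorem Z_pos_iff (s : ℝ) (N : ℕ) :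
    0 < zB d a L c s N ↔ 0 < cr (volume : Measure (Fin d → ℝ)) (2 * a) N (Box d s) :=
  zN_pos_iff P (volume_Box_ne _) N

end Pn

/-- Partition function of the box of side `n ℓ - R`: it is superadditive. -/
noncomputable def Zn (d : ℕ) (a L c ℓ : ℝ) (n N : ℕ) : ℝ := zB d a L c (n * ℓ - Rc a L) N

/-- The logarithm of the partition function and the number of particles. -/
theorem log_Zn_le (P : Pn a L c) (hℓ : 0 < ℓ) (w : ℝ) (n N : ℕ)
    (hZ : 0 < Zn d a L c ℓ n N) :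
    Real.log (Zn d a L c ℓ n N) + w * N ≤
      Real.log (Zn d a L c ℓ n 0) + Real.exp w * (ℓ ^ d * (n : ℝ) ^ d) := by
  have hR := P.R_pos
  unfold Zn at hZ ⊢
  have h1 := P.Z_le (d := d) (n * ℓ - Rc a L) N
  have h0 := P.one_le_Z (d := d) (n * ℓ - Rc a L)
  obtain ⟨V, hV⟩ : ∃ V : ℝ, V = (volume (Box d (n * ℓ - Rc a L))).toReal := ⟨_, rfl⟩
  have hV0 : 0 ≤ V := by rw [hV]; exact ENNReal.toReal_nonneg
  have hVl : V ≤ ℓ ^ d * (n : ℝ) ^ d := by
    rw [hV, ← mul_pow]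
    exact vol_toReal_le (by linarith [mul_comm ℓ (n : ℝ)]) (by positivity)
  rw [← hV] at h1
  have h2 : zB d a L c (n * ℓ - Rc a L) N * Real.exp (w * N) ≤
      zB d a L c (n * ℓ - Rc a L) 0 * Real.exp (Real.exp w * (ℓ ^ d * (n : ℝ) ^ d)) := by
    have h3 : zB d a L c (n * ℓ - Rc a L) N * Real.exp (w * N) ≤
        zB d a L c (n * ℓ - Rc a L) 0 * (V ^ N / N.factorial) * Real.exp (w * N) :=
      mul_le_mul_of_nonneg_right h1 (Real.exp_pos _).le
    refine h3.trans ?_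
    have h4 : zB d a L c (n * ℓ - Rc a L) 0 * (V ^ N / N.factorial) * Real.exp (w * N) =
        zB d a L c (n * ℓ - Rc a L) 0 * ((Real.exp w * V) ^ N / N.factorial) := by
      rw [mul_pow, mul_comm w, Real.exp_nat_mul]
      ring
    rw [h4]
    refine mul_le_mul_of_nonneg_left ?_ (by linarith)
    refine (pow_div_le_exp (by positivity) N).trans (Real.exp_le_exp.2 ?_)
    exact mul_le_mul_of_nonneg_left hVl (Real.exp_pos _).le
  have h5 := Real.log_le_log (by positivity) h2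
  rwa [Real.log_mul hZ.ne' (Real.exp_pos _).ne', Real.log_mul (by linarith) (Real.exp_pos _).ne',
    Real.log_exp, Real.log_exp] at h5

theorem exists_thG (hd : 1 ≤ d) (P : Pn a L c) (hℓ : Rc a L < ℓ) :
    ∃ U B : ℝ, ThG d (Zn d a L c ℓ) U B := by
  have hR := P.R_pos
  have hℓ0 : 0 < ℓ := by linarith
  have hd' : (0 : ℝ) < d := by exact_mod_cast hd
  have ha := P.ha
  have hc := P.hc
  have hκ := kap_nonneg d
  refine ⟨(c * kap d + 1) * ℓ ^ d, ((d : ℝ) / (2 * a) * ℓ + 1) ^ d, hd, ?_, ?_, ?_, ?_, ?_, ?_⟩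
  · intro L1 k n l h1 h2 h3
    exact can_super P hℓ L1 k n l h1 h2 h3
  · intro n N M hMN
    unfold Zn
    rw [P.Z_pos_iff, P.Z_pos_iff]
    exact cr_pos_of_le _ _ (measurableSet_Box _) (volume_Box_ne _) hMN
  · intro n _
    exact P.one_le_Z _
  · intro n N
    exact Pn.Z_nonneg _ _
  · intro n N _ hZ
    have h1 := log_Zn_le P hℓ0 0 n N hZ
    rw [zero_mul, add_zero, Real.exp_zero, one_mul] at h1
    refine h1.trans ?_
    have h2 : Real.log (Zn d a L c ℓ n 0) ≤ c * kap d * (ℓ ^ d * (n : ℝ) ^ d) := by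
      unfold Zn
      rw [Pn.Z_zero, Real.log_exp, mul_assoc]
      refine mul_le_mul_of_nonneg_left ?_ hc
      rw [mul_comm]
      refine mul_le_mul_of_nonneg_left ?_ hκ
      rw [← mul_pow]
      exact vol_toReal_le (by linarith [mul_comm ℓ (n : ℝ)]) (by positivity)
    have h5 : (c * kap d + 1) * ℓ ^ d * (n : ℝ) ^ d =
        c * kap d * (ℓ ^ d * (n : ℝ) ^ d) + ℓ ^ d * (n : ℝ) ^ d := by
      ring
    rw [h5]
    linarith
  · intro n N hL hp
    unfold Zn at hp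
    rw [P.Z_pos_iff] at hp
    have h1 : (Pool.Agent.ConfinedGas.Cf (2 * a) (Fin N) (Box d (n * ℓ - Rc a L))).Nonempty := by
      by_contra hcon
      rw [Set.not_nonempty_iff_eq_empty] at hcon
      unfold cr mC at hp
      rw [hcon, measure_empty] at hp
      simp at hp
    have h2 := card_box_le hd (by positivity) h1
    have hL' : (1 : ℝ) ≤ n := by exact_mod_cast hL
    obtain ⟨e, he⟩ : ∃ e : ℝ, e = (d : ℝ) / (2 * a) := ⟨_, rfl⟩
    have he0 : 0 < e := by rw [he]; positivity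
    rw [← he] at h2 ⊢
    have h3 : ((⌈e * (n * ℓ - Rc a L)⌉₊ : ℕ) : ℝ) ≤ (e * ℓ + 1) * n := by
      have h4 : 0 ≤ e * (n * ℓ - Rc a L) := by
        have : (1 : ℝ) * ℓ ≤ n * ℓ := mul_le_mul_of_nonneg_right hL' hℓ0.le
        refine mul_nonneg he0.le (by linarith)
      have h5 := (Nat.ceil_lt_add_one h4).le
      refine h5.trans ?_
      have h6 : e * (n * ℓ - Rc a L) + 1 = e * ℓ * n + 1 - e * Rc a L := by ring
      rw [h6]
      have h7 : (e * ℓ + 1) * (n : ℝ) = e * ℓ * n + n := by ring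
      rw [h7]
      have h8 : 0 ≤ e * Rc a L := by positivity
      linarith
    have h4 : (N : ℝ) ≤ ((⌈e * (n * ℓ - Rc a L)⌉₊ : ℕ) : ℝ) ^ d := by exact_mod_cast h2
    rw [← mul_pow]
    exact h4.trans (pow_le_pow_left₀ (by positivity) h3 d)

/-- Adding a particle. -/
theorem insert_le (P : Pn a L c) :
    ∃ v : ℝ, 0 < v ∧ ∀ n N K' : ℕ, 1 ≤ n → (∀ m, 0 < Zn d a L c ℓ n m → m ≤ K') → N ≤ K' →
      ((N : ℝ) + 1) * Zn d a L c ℓ n (N + 1) ≤
        v * ((K' : ℝ) - N) * Zn d a L c ℓ n N := by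
  have ha := P.ha
  refine ⟨(2 * (2 * a)) ^ d, by positivity, fun n N K' hL hK' hN => ?_⟩
  unfold Zn at hK' ⊢
  have hK'' : ∀ m, 0 < mC (volume : Measure (Fin d → ℝ)) (2 * a) (Fin m)
      (Box d (n * ℓ - Rc a L)) → m ≤ K' := by
    intro m hm
    refine hK' m ((P.Z_pos_iff _ _).2 ?_)
    unfold cr
    have h1 := ENNReal.toReal_pos hm.ne' (mC_ne_top volume (2 * a) (volume_Box_ne _) m)
    positivity
  have h := WN_insert P (measurableSet_Box (d := d) (n * ℓ - Rc a L)) (volume_Box_ne _) hK'' hN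
  have hne : (((K' - N : ℕ) : ENNReal) * ENNReal.ofReal (2 * (2 * a)) ^ d) *
      WN a L c (Fin N) (Box d (n * ℓ - Rc a L)) ≠ ⊤ :=
    ENNReal.mul_ne_top (ENNReal.mul_ne_top (ENNReal.natCast_ne_top _)
      (ENNReal.pow_ne_top ENNReal.ofReal_ne_top)) (WN_ne_top P (volume_Box_ne _))
  have h1 := ENNReal.toReal_mono hne h
  rw [ENNReal.toReal_mul, ENNReal.toReal_mul, ENNReal.toReal_natCast,
    ENNReal.toReal_pow, ENNReal.toReal_ofReal (by positivity), Nat.cast_sub hN] at h1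
  unfold zB zN
  have h2 : (((N + 1).factorial : ℝ))⁻¹ = ((N : ℝ) + 1)⁻¹ * ((N.factorial : ℝ))⁻¹ := by
    rw [Nat.factorial_succ]
    push_cast
    rw [mul_inv]
  have h3 : (0 : ℝ) < (N : ℝ) + 1 := by positivity
  rw [h2]
  calc ((N : ℝ) + 1) * (((N : ℝ) + 1)⁻¹ * ((N.factorial : ℝ))⁻¹ *
        (WN a L c (Fin (N + 1)) (Box d (n * ℓ - Rc a L))).toReal)
      = ((N.factorial : ℝ))⁻¹ *
        (WN a L c (Fin (N + 1)) (Box d (n * ℓ - Rc a L))).toReal := by
        field_simp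
    _ ≤ ((N.factorial : ℝ))⁻¹ * ((((K' : ℝ) - N) * (2 * (2 * a)) ^ d) *
        (WN a L c (Fin N) (Box d (n * ℓ - Rc a L))).toReal) :=
        mul_le_mul_of_nonneg_left h1 (by positivity)
    _ = _ := by ring

end Pool.Agent.Ndc
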