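import Pool.Agent.Lib.MP_09cbbd_ndc.NcC
import Pool.Agent.Lib.MP_09cbbd_mx.KinkM

/-!
# Pressure and free energy of spheres and needles
-/

set_option autoImplicit false

namespace Pool.Agent.Ndc

open MeasureTheory Finset Filter Topology Pool.Agent.StableGas Pool.Agent.SquareWellGas
  Pool.Agent.SquareWell Pool.Agent.NeedleGas Pool.Agent.ConfinedGas Pool.Agent.Mix.CanM
  Pool.Agent.Mix

variable {d : ℕ} {a L c ℓ : ℝ}

theorem Pn.zero (P : Pn a L c) : Pn a L 0 := ⟨P.ha, P.hL, le_rfl⟩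

theorem zN_c0 (A : Set (Fin d → ℝ)) (N : ℕ) :
    zN a L 0 A N = cr (volume : Measure (Fin d → ℝ)) (2 * a) N A := by
  unfold zN cr WN wN
  simp only [zero_mul, ex_zero]
  rw [lintegral_one, Measure.restrict_apply_univ]
  rfl

/-- Lower bound for the hard-sphere gas. -/
theorem hs_low (hd : 1 ≤ d) (P : Pn a L c) (hℓ : Rc a L < ℓ) (μ : ℝ) :
    ∃ L1 : ℕ, 1 ≤ L1 ∧ ∀ k : ℕ, Real.exp ((k : ℝ) ^ d) ≤ Real.exp (μ * (k : ℝ) ^ d) *
      cr (volume : Measure (Fin d → ℝ)) (2 * a) (k ^ d)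
        (Box d (((k * L1 : ℕ) : ℝ) * ℓ - Rc a L)) := by
  have hR := P.R_pos
  have hℓ0 : 0 < ℓ := by linarith
  obtain ⟨n, hn⟩ := exists_nat_gt ((Real.exp (1 - μ) + 1 + Rc a L) / ℓ)
  rw [div_lt_iff₀ hℓ0] at hn
  have he := Real.exp_pos (1 - μ)
  have hn0 : 1 ≤ n := by
    rcases Nat.eq_zero_or_pos n with h | h
    · rw [h] at hn
      simp at hn
      linarith
    · exact h
  refine ⟨n, hn0, fun k => ?_⟩
  have h1 := can_super (d := d) P.zero hℓ n k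
    (k * n) (List.replicate (k ^ d) 1) hn0 le_rfl (by rw [List.length_replicate])
  rw [List.map_replicate, List.prod_replicate, List.sum_replicate, smul_eq_mul, mul_one] at h1
  simp only [zN_c0, cr_one] at h1
  have h2 : Real.exp (1 - μ) ≤ (volume (Box d ((n : ℝ) * ℓ - Rc a L))).toReal := by
    rw [volume_Box, ENNReal.toReal_pow, ENNReal.toReal_ofReal (by linarith)]
    have h3 : (1 : ℝ) ≤ n * ℓ - Rc a L := by linarith
    refine le_trans ?_ (le_self_pow₀ h3 (by omega))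
    linarith
  have h4 : Real.exp (1 - μ) ^ (k ^ d) ≤ cr (volume : Measure (Fin d → ℝ)) (2 * a) (k ^ d)
      (Box d (((k * n : ℕ) : ℝ) * ℓ - Rc a L)) :=
    (pow_le_pow_left₀ he.le h2 _).trans h1
  have h5 : Real.exp ((k : ℝ) ^ d) = Real.exp (μ * (k : ℝ) ^ d) * Real.exp (1 - μ) ^ (k ^ d) := by
    rw [← Real.exp_nat_mul, ← Real.exp_add]
    congr 1
    push_cast
    ring
  rw [h5]
  exact mul_le_mul_of_nonneg_left h4 (Real.exp_pos _).le

/-- The pressure is greater than the pressure of the needles alone. -/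
theorem p_gt (hd : 1 ≤ d) (P : Pn a L c) (hℓ : Rc a L < ℓ) {w p : ℝ}
    (hpu : ∀ n N : ℕ, 1 ≤ n → 0 < Zn d a L c ℓ n N →
      Real.log (Zn d a L c ℓ n N) + w * N ≤ p * (n : ℝ) ^ d) :
    ∃ η : ℝ, 0 < η ∧ ∀ n : ℕ, 1 ≤ n → Real.log (Zn d a L c ℓ n 0) ≤ (p - η) * (n : ℝ) ^ d := by
  obtain ⟨U, B, T⟩ := exists_thG hd P hℓ
  obtain ⟨C, hC⟩ : ∃ C, C = c * ((2 * Rc a L) ^ d * kap d) := ⟨_, rfl⟩
  obtain ⟨n, hn, h⟩ := hs_low hd P hℓ (w - C)
  have hn' : (0 : ℝ) < n := by exact_mod_cast hn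
  have hz0 : ∀ m, 0 < Zn d a L c ℓ m 0 := fun m => lt_of_lt_of_le one_pos (P.one_le_Z _)
  have key : ∀ k : ℕ, 1 ≤ k → Real.log (Zn d a L c ℓ (k * n) 0) ≤
      (p - 1 / (n : ℝ) ^ d) * ((k * n : ℕ) : ℝ) ^ d := by
    intro k hk
    have hk' : (0 : ℝ) < k := by exact_mod_cast hk
    have h1 := h k
    have h2 := P.Z_ge (d := d) (((k * n : ℕ) : ℝ) * ℓ - Rc a L) (k ^ d)
    rw [← hC] at h2
    obtain ⟨e, he⟩ : ∃ e, e = cr (volume : Measure (Fin d → ℝ)) (2 * a) (k ^ d)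
      (Box d (((k * n : ℕ) : ℝ) * ℓ - Rc a L)) := ⟨_, rfl⟩
    rw [← he] at h1 h2
    have h3 : Real.exp ((k : ℝ) ^ d) * Zn d a L c ℓ (k * n) 0 ≤
        Real.exp (w * (k : ℝ) ^ d) * Zn d a L c ℓ (k * n) (k ^ d) := by
      calc Real.exp ((k : ℝ) ^ d) * Zn d a L c ℓ (k * n) 0
          ≤ Real.exp ((w - C) * (k : ℝ) ^ d) * e * Zn d a L c ℓ (k * n) 0 :=
            mul_le_mul_of_nonneg_right h1 (hz0 _).le
        _ = Real.exp ((w - C) * (k : ℝ) ^ d) * (Zn d a L c ℓ (k * n) 0 * e) := by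
            ring
        _ ≤ Real.exp ((w - C) * (k : ℝ) ^ d) *
            (Real.exp (((k ^ d : ℕ) : ℝ) * C) * Zn d a L c ℓ (k * n) (k ^ d)) :=
            mul_le_mul_of_nonneg_left h2 (Real.exp_pos _).le
        _ = _ := by
            rw [← mul_assoc, ← Real.exp_add]
            congr 2
            push_cast
            ring
    have hpos : 0 < Zn d a L c ℓ (k * n) (k ^ d) := by
      have h4 : 0 < Real.exp ((k : ℝ) ^ d) * Zn d a L c ℓ (k * n) 0 :=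
        mul_pos (Real.exp_pos _) (hz0 _)
      exact pos_of_mul_pos_right (lt_of_lt_of_le h4 h3) (Real.exp_pos _).le
    have h5 := Real.log_le_log (mul_pos (Real.exp_pos _) (hz0 _)) h3
    rw [Real.log_mul (Real.exp_pos _).ne' (hz0 _).ne', Real.log_mul (Real.exp_pos _).ne' hpos.ne',
      Real.log_exp, Real.log_exp] at h5
    have h6 := hpu (k * n) (k ^ d) (Nat.one_le_iff_ne_zero.2 (by positivity)) hpos
    push_cast at h6 ⊢
    have h7 : (p - 1 / (n : ℝ) ^ d) * ((k : ℝ) * n) ^ d = p * ((k : ℝ) * n) ^ d - (k : ℝ) ^ d := by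
      rw [mul_pow]
      field_simp
    rw [h7]
    linarith
  refine ⟨1 / (n : ℝ) ^ d, by positivity, fun m hm => ?_⟩
  have h1 := T.sup m n (m * n) (List.replicate (n ^ d) 0) hm (by rw [mul_comm])
    (by rw [List.length_replicate])
  rw [List.map_replicate, List.prod_replicate, List.sum_replicate, smul_zero] at h1
  have h2 := Real.log_le_log (pow_pos (hz0 m) _) h1
  rw [Real.log_pow] at h2
  have h3 := h2.trans (key m hm)
  push_cast at h3
  rw [mul_pow, ← mul_assoc, mul_comm ((n : ℝ) ^ d)] at h3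
  exact le_of_mul_le_mul_right h3 (by positivity)

/-- Low chemical potentials. -/
theorem hlow_of (hd : 1 ≤ d) (P : Pn a L c) (hℓ : Rc a L < ℓ) {w p : ℝ}
    (hpu : ∀ n N : ℕ, 1 ≤ n → 0 < Zn d a L c ℓ n N →
      Real.log (Zn d a L c ℓ n N) + w * N ≤ p * (n : ℝ) ^ d) :
    ∃ w' q : ℝ, q < p ∧ ∀ n N : ℕ, 1 ≤ n → 0 < Zn d a L c ℓ n N →
      Real.log (Zn d a L c ℓ n N) + w' * N ≤ q * (n : ℝ) ^ d := by
  obtain ⟨η, hη, h⟩ := p_gt hd P hℓ hpu
  have hR := P.R_pos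
  have hℓ0 : 0 < ℓ := by linarith
  have hV : 0 < ℓ ^ d := by positivity
  refine ⟨Real.log (η / 2 / ℓ ^ d), p - η / 2, by linarith, fun n N hL hZ => ?_⟩
  have h1 := log_Zn_le P hℓ0 (Real.log (η / 2 / ℓ ^ d)) n N hZ
  have h2 := h n hL
  rw [Real.exp_log (by positivity)] at h1
  have h3 : η / 2 / ℓ ^ d * (ℓ ^ d * (n : ℝ) ^ d) = η / 2 * (n : ℝ) ^ d := by
    field_simp
  rw [h3] at h1
  have h4 : (p - η / 2) * (n : ℝ) ^ d = (p - η) * (n : ℝ) ^ d + η / 2 * (n : ℝ) ^ d := by ring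
  rw [h4]
  linarith

/-- The limit along real side lengths. -/
theorem lim_real (P : Pn a L c) {U B : ℝ} (hℓ : Rc a L < ℓ)
    (T : ThG d (Zn d a L c ℓ) U B) {u : ℕ → ℝ} {N : ℕ → ℕ} {ρ : ℝ} (hu : Tendsto u atTop atTop)
    (hN : Tendsto (fun j => (N j : ℝ) / u j ^ d) atTop (𝓝 ρ)) :
    (ρ ∈ Set.Ioo 0 (Th.rz d (Zn d a L c ℓ)) → (∀ᶠ j in atTop, 0 < zB d a L c (u j * ℓ) (N j)) ∧
      Tendsto (fun j => Real.log (zB d a L c (u j * ℓ) (N j)) / u j ^ d) atTop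
        (𝓝 (Th.ff d (Zn d a L c ℓ) ρ))) ∧
    (Th.rz d (Zn d a L c ℓ) < ρ → ∀ᶠ j in atTop, zB d a L c (u j * ℓ) (N j) = 0) := by
  have hR := P.R_pos
  have hℓ0 : 0 < ℓ := by linarith
  obtain ⟨R, hRe⟩ : ∃ R, R = Rc a L := ⟨_, rfl⟩
  obtain ⟨t, ht⟩ : ∃ t : ℕ → ℝ, t = fun j => u j - 1 + R / ℓ := ⟨_, rfl⟩
  have htu : Tendsto t atTop atTop := by
    rw [ht]
    exact tendsto_atTop_add_const_right _ _ (tendsto_atTop_add_const_right _ _ hu)
  have hratio : Tendsto (fun j => t j / u j) atTop (𝓝 1) := by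
    have g1 : Tendsto (fun j => 1 + (-1 + R / ℓ) / u j) atTop (𝓝 (1 + 0)) :=
      (hu.const_div_atTop _).const_add 1
    rw [add_zero] at g1
    refine g1.congr' ?_
    filter_upwards [hu.eventually_gt_atTop 0] with j hj
    rw [ht]
    field_simp
    ring
  have hratio' : Tendsto (fun j => (t j / u j) ^ d) atTop (𝓝 1) := by
    have := hratio.pow d
    rwa [one_pow] at this
  have hNt : Tendsto (fun j => (N j : ℝ) / t j ^ d) atTop (𝓝 ρ) := by
    have g1 := hN.div hratio' one_ne_zero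
    rw [div_one] at g1
    refine g1.congr' ?_
    filter_upwards [hu.eventually_gt_atTop 0, htu.eventually_gt_atTop 0] with j hj hj'
    simp only [Pi.div_apply]
    rw [div_pow]
    field_simp
  have hZr : ∀ j, zB d a L c (u j * ℓ) (N j) =
      (fun (t : ℝ) (N : ℕ) => zB d a L c ((t + 1) * ℓ - Rc a L) N) (t j) (N j) := by
    intro j
    simp only
    congr 1
    rw [ht, ← hRe]
    field_simp
    ring
  have hr1 : ∀ t : ℝ, 0 ≤ t → ∀ N, Zn d a L c ℓ (⌊t⌋₊ + 1) N ≤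
      (fun (t : ℝ) (N : ℕ) => zB d a L c ((t + 1) * ℓ - Rc a L) N) t N := by
    intro t ht N
    refine P.Z_mono ?_ N
    have := Nat.floor_le ht
    push_cast
    have : ((⌊t⌋₊ : ℝ) + 1) * ℓ ≤ (t + 1) * ℓ := mul_le_mul_of_nonneg_right (by linarith) hℓ0.le
    linarith
  have hr2 : ∀ t : ℝ, 0 ≤ t → ∀ N,
      (fun (t : ℝ) (N : ℕ) => zB d a L c ((t + 1) * ℓ - Rc a L) N) t N ≤
        Zn d a L c ℓ (⌊t⌋₊ + 2) N := by
    intro t _ N
    refine P.Z_mono ?_ N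
    have := (Nat.lt_floor_add_one t).le
    push_cast
    have : (t + 1) * ℓ ≤ ((⌊t⌋₊ : ℝ) + 2) * ℓ := mul_le_mul_of_nonneg_right (by linarith) hℓ0.le
    linarith
  constructor
  · rintro ⟨g0, g1⟩
    obtain ⟨g2, g3⟩ := T.seq hr1 hr2 htu hNt g0 g1
    refine ⟨?_, ?_⟩
    · filter_upwards [g2] with j hj
      rw [hZr]
      exact hj
    · have g4 := g3.mul hratio'
      rw [mul_one] at g4
      refine g4.congr' ?_
      filter_upwards [hu.eventually_gt_atTop 0, htu.eventually_gt_atTop 0] with j hj hj'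
      rw [hZr, div_pow]
      field_simp
  · intro g
    have g1 := T.seq_zero (fun t N => Pn.Z_nonneg _ N) hr2 htu hNt g
    filter_upwards [g1] with j hj
    rw [hZr]
    exact hj

/-- The maximal density is positive. -/
theorem rz_pos (hd : 1 ≤ d) (P : Pn a L c) (hℓ : Rc a L < ℓ) : 0 < Th.rz d (Zn d a L c ℓ) := by
  obtain ⟨U, B, T⟩ := exists_thG hd P hℓ
  obtain ⟨n, hn, h⟩ := hs_low hd P hℓ 0
  have h1 := h 1
  rw [one_pow, one_mul] at h1
  have h2 : 0 < cr (volume : Measure (Fin d → ℝ)) (2 * a) 1 (Box d ((n : ℝ) * ℓ - Rc a L)) := by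
    by_contra hcon
    push Not at hcon
    have h3 := lt_of_lt_of_le (Real.exp_pos _) h1
    have h4 := mul_nonpos_of_nonneg_of_nonpos (Real.exp_pos (0 * ((1 : ℕ) : ℝ) ^ d)).le hcon
    exact absurd h3 (not_lt.2 h4)
  have h3 : 0 < Zn d a L c ℓ n 1 := by
    unfold Zn
    rw [P.Z_pos_iff]
    exact h2
  have h4 := T.le_rz hn h3
  have h5 : (0 : ℝ) < (n : ℝ) ^ d := by
    have : (0 : ℝ) < n := by exact_mod_cast hn
    positivity
  by_contra hcon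
  push Not at hcon
  have h6 := mul_nonpos_of_nonpos_of_nonneg hcon h5.le
  push_cast at h4
  linarith

/-- The maximal density depends only on the radius. -/
theorem rz_le (hd : 1 ≤ d) {L' c' ℓ' : ℝ} (P : Pn a L c) (P' : Pn a L' c') (hℓ : Rc a L < ℓ)
    (hℓ' : Rc a L' < ℓ') : Th.rz d (Zn d a L c ℓ) / ℓ ^ d ≤ Th.rz d (Zn d a L' c' ℓ') / ℓ' ^ d := by
  by_contra hcon
  push Not at hcon
  obtain ⟨U, B, T⟩ := exists_thG hd P hℓ
  obtain ⟨U', B', T'⟩ := exists_thG hd P' hℓ'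
  have hR := P.R_pos
  have hR' := P'.R_pos
  have hℓ0 : 0 < ℓ := by linarith
  have hℓ0' : 0 < ℓ' := by linarith
  have hld : 0 < ℓ ^ d := by positivity
  have hld' : 0 < ℓ' ^ d := by positivity
  obtain ⟨ρ, h1, h2⟩ := exists_between hcon
  have h0 : 0 < Th.rz d (Zn d a L' c' ℓ') / ℓ' ^ d := div_pos (rz_pos hd P' hℓ') hld'
  have hρ0 : 0 < ρ := h0.trans h1
  rw [lt_div_iff₀ hld] at h2
  rw [div_lt_iff₀ hld'] at h1
  have hs : Tendsto (fun j : ℕ => (j : ℝ)) atTop atTop := tendsto_natCast_atTop_atTop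
  have hN : Tendsto (fun j : ℕ => ((⌊ρ * (j : ℝ) ^ d⌋₊ : ℕ) : ℝ) / (j : ℝ) ^ d) atTop (𝓝 ρ) := by
    have g1 := tendsto_nat_floor_mul_div_atTop hρ0.le
    exact g1.comp (Pool.Agent.ConfinedGas.tendsto_vol (d := d) hd)
  have key : ∀ l : ℝ, 0 < l → Tendsto (fun j : ℕ => (j : ℝ) / l) atTop atTop ∧
      Tendsto (fun j : ℕ => ((⌊ρ * (j : ℝ) ^ d⌋₊ : ℕ) : ℝ) / ((j : ℝ) / l) ^ d) atTop
        (𝓝 (ρ * l ^ d)) := by
    intro l hl
    refine ⟨hs.atTop_div_const hl, ?_⟩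
    refine (hN.mul_const (l ^ d)).congr fun j => ?_
    rw [div_pow, div_div_eq_mul_div]
    ring
  obtain ⟨k1, k2⟩ := key ℓ hℓ0
  obtain ⟨k3, k4⟩ := key ℓ' hℓ0'
  obtain ⟨g1, -⟩ := (lim_real P hℓ T k1 k2).1 ⟨by positivity, h2⟩
  have g2 := (lim_real P' hℓ' T' k3 k4).2 h1
  obtain ⟨j, hj1, hj2⟩ := (g1.and g2).exists
  rw [div_mul_cancel₀ _ hℓ0.ne', P.Z_pos_iff] at hj1
  rw [div_mul_cancel₀ _ hℓ0'.ne'] at hj2
  have h3 := (P'.Z_pos_iff (d := d) _ _).2 hj1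
  rw [hj2] at h3
  exact lt_irrefl _ h3

/-- The maximal density of the hard spheres. -/
noncomputable def rhoc (d : ℕ) (a : ℝ) : ℝ := Th.rz d (Zn d a a 0 (4 * a)) / (4 * a) ^ d

theorem rz_eq (hd : 1 ≤ d) (P : Pn a L c) (hℓ : Rc a L < ℓ) :
    Th.rz d (Zn d a L c ℓ) / ℓ ^ d = rhoc d a := by
  have ha := P.ha
  have P' : Pn a a 0 := ⟨ha, ha, le_rfl⟩
  have h : Rc a a < 4 * a := by
    unfold Rc
    linarith
  exact le_antisymm (rz_le hd P P' hℓ h) (rz_le hd P' P h hℓ)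

theorem rhoc_pos (hd : 1 ≤ d) (ha : 0 < a) : 0 < rhoc d a := by
  have P' : Pn a a 0 := ⟨ha, ha, le_rfl⟩
  have h : Rc a a < 4 * a := by
    unfold Rc
    linarith
  exact div_pos (rz_pos hd P' h) (by positivity)

end Pool.Agent.Ndc
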