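import Pool.Agent.Lib.MP_09cbbd_ndc.NcD

/-!
# From a kink of the pressure to the transition
-/

set_option autoImplicit false

namespace Pool.Agent.Ndc

open MeasureTheory Finset Filter Topology Pool.Agent.StableGas Pool.Agent.SquareWellGas
  Pool.Agent.SquareWell Pool.Agent.NeedleGas Pool.Agent.ConfinedGas Pool.Agent.Mix.CanM
  Pool.Agent.Mix

variable {d : ℕ} {a L c ℓ : ℝ}

/-- The pressure and the canonical partition functions. -/
theorem ensembles (hd : 1 ≤ d) (P : Pn a L c) {l0 : ℝ} {K0 : ℕ} (hK0pos : 1 ≤ K0)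
    (hK : Rc a L < K0 * l0) {q : ℝ → ℝ}
    (hlimq : ∀ μ : ℝ, Tendsto (fun n : ℕ => Real.log (∑' k : ℕ, ex (μ * k) *
      ENNReal.ofReal (zB d a L c (n * l0) k)).toReal / (n : ℝ) ^ d) atTop (𝓝 (q μ))) :
    (∀ (μ : ℝ) (n N : ℕ), 1 ≤ n → 0 < Zn d a L c (K0 * l0) n N →
      Real.log (Zn d a L c (K0 * l0) n N) + μ * N ≤ (K0 : ℝ) ^ d * q μ * (n : ℝ) ^ d) ∧
    ∀ (μ ε : ℝ), 0 < ε → ∃ n N : ℕ, 1 ≤ n ∧ 0 < Zn d a L c (K0 * l0) n N ∧
      ((K0 : ℝ) ^ d * q μ - ε) * (n : ℝ) ^ d ≤ Real.log (Zn d a L c (K0 * l0) n N) + μ * N := by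
  classical
  have hR := P.R_pos
  have hK0' : (0 : ℝ) < K0 := by exact_mod_cast hK0pos
  obtain ⟨ℓ, hℓe⟩ : ∃ ℓ : ℝ, ℓ = K0 * l0 := ⟨_, rfl⟩
  rw [← hℓe] at hK ⊢
  have hℓ0 : 0 < ℓ := by linarith
  obtain ⟨p, hpe⟩ : ∃ p : ℝ → ℝ, p = fun μ => (K0 : ℝ) ^ d * q μ := ⟨_, rfl⟩
  have hpe' : ∀ μ, (K0 : ℝ) ^ d * q μ = p μ := fun μ => by rw [hpe]
  simp only [hpe']
  have hlim : ∀ μ : ℝ, Tendsto (fun n : ℕ => Real.log (∑' k : ℕ, ex (μ * k) *
      ENNReal.ofReal (zB d a L c (n * ℓ) k)).toReal / (n : ℝ) ^ d) atTop (𝓝 (p μ)) := by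
    intro μ
    have hk : Tendsto (fun n : ℕ => n * K0) atTop atTop :=
      tendsto_id.atTop_mul_const' (by omega)
    have h1 := ((hlimq μ).comp hk).const_mul ((K0 : ℝ) ^ d)
    rw [hpe]
    refine h1.congr fun n => ?_
    simp only [Function.comp]
    have h2 : (((n * K0 : ℕ) : ℝ)) * l0 = n * ℓ := by rw [hℓe]; push_cast; ring
    rw [h2]
    push_cast
    rw [mul_pow]
    field_simp
  obtain ⟨U, B, T⟩ := exists_thG hd P hK
  -- elementary facts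
  have hup : ∀ n k : ℕ, zB d a L c (n * ℓ) k ≤ Zn d a L c ℓ (n + 1) k := by
    intro n k
    refine P.Z_mono ?_ k
    push_cast
    linarith
  have hlo : ∀ n k : ℕ, Zn d a L c ℓ n k ≤ zB d a L c (n * ℓ) k := by
    intro n k
    exact P.Z_mono (by linarith) k
  have hB0 : 0 ≤ B := by
    have h1 := T.fin 1 0 le_rfl (lt_of_lt_of_le one_pos (T.zero 1 le_rfl))
    simpa using h1
  have hZ0 : ∀ n k : ℕ, 0 ≤ zB d a L c (n * ℓ) k := fun n k => Pn.Z_nonneg _ k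
  obtain ⟨Q, hQ⟩ : ∃ Q : ℕ → ℕ, Q = fun n : ℕ => ⌊B * ((n : ℝ) + 1) ^ d⌋₊ := ⟨_, rfl⟩
  have hzero : ∀ n k : ℕ, k ∉ Finset.range (Q n + 1) → zB d a L c (n * ℓ) k = 0 := by
    intro n k hk
    rw [Finset.mem_range, not_lt] at hk
    by_contra hcon
    have h1 : 0 < Zn d a L c ℓ (n + 1) k :=
      lt_of_lt_of_le (lt_of_le_of_ne (hZ0 n k) (Ne.symm hcon)) (hup n k)
    have h2 := T.fin (n + 1) k (by omega) h1
    push_cast at h2
    have h3 : k ≤ ⌊B * ((n : ℝ) + 1) ^ d⌋₊ := Nat.le_floor h2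
    have h4 : Q n = ⌊B * ((n : ℝ) + 1) ^ d⌋₊ := by rw [hQ]
    omega
  -- the partition functions
  obtain ⟨S, hS⟩ : ∃ S : ℝ → ℕ → ℝ, S = fun (μ : ℝ) (n : ℕ) => ∑ k ∈ Finset.range (Q n + 1),
    Real.exp (μ * k) * zB d a L c (n * ℓ) k := ⟨_, rfl⟩
  have hSeq : ∀ (μ : ℝ) (n : ℕ), (∑' k : ℕ, ex (μ * k) *
      ENNReal.ofReal (zB d a L c (n * ℓ) k)).toReal = S μ n := by
    intro μ n
    rw [tsum_eq_sum (s := Finset.range (Q n + 1)) (fun k hk => by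
      rw [hzero n k hk, ENNReal.ofReal_zero, mul_zero]), ENNReal.toReal_sum (fun k _ =>
      ENNReal.mul_ne_top (ex_ne_top _) ENNReal.ofReal_ne_top), hS]
    refine Finset.sum_congr rfl fun k _ => ?_
    rw [ENNReal.toReal_mul, ex_toReal, ENNReal.toReal_ofReal (hZ0 n k)]
  have hlim' : ∀ μ : ℝ, Tendsto (fun n : ℕ => Real.log (S μ n) / (n : ℝ) ^ d) atTop
      (𝓝 (p μ)) := by
    intro μ
    refine (hlim μ).congr fun n => ?_
    rw [hSeq]
  have hterm0 : ∀ (μ : ℝ) (n k : ℕ), 0 ≤ Real.exp (μ * k) * zB d a L c (n * ℓ) k :=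
    fun μ n k => mul_nonneg (Real.exp_pos _).le (hZ0 n k)
  have hSterm : ∀ (μ : ℝ) (n k : ℕ), Real.exp (μ * k) * zB d a L c (n * ℓ) k ≤ S μ n := by
    intro μ n k
    rw [hS]
    by_cases hk : k ∈ Finset.range (Q n + 1)
    · exact Finset.single_le_sum
        (f := fun k : ℕ => Real.exp (μ * k) * zB d a L c (n * ℓ) k)
        (fun k _ => hterm0 μ n k) hk
    · rw [hzero n k hk, mul_zero]
      exact Finset.sum_nonneg fun k _ => hterm0 μ n k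
  have hSpos : ∀ μ n, 0 < S μ n := by
    intro μ n
    have h1 := hSterm μ n 0
    have h2 : 1 ≤ zB d a L c (n * ℓ) 0 := P.one_le_Z _
    have h3 : Real.exp (μ * (0 : ℕ)) = 1 := by simp
    rw [h3, one_mul] at h1
    linarith
  have hSmax : ∀ (μ : ℝ) (n : ℕ), ∃ N' : ℕ, S μ n ≤ (B * ((n : ℝ) + 1) ^ d + 1) *
      (Real.exp (μ * N') * zB d a L c (n * ℓ) N') := by
    intro μ n
    obtain ⟨N', _, hN'⟩ := Finset.exists_max_image (Finset.range (Q n + 1))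
      (fun k : ℕ => Real.exp (μ * k) * zB d a L c (n * ℓ) k)
      ⟨0, Finset.mem_range.2 (Nat.succ_pos _)⟩
    refine ⟨N', ?_⟩
    have h1 := Finset.sum_le_card_nsmul (Finset.range (Q n + 1))
      (fun k : ℕ => Real.exp (μ * k) * zB d a L c (n * ℓ) k) _ hN'
    rw [Finset.card_range, nsmul_eq_mul] at h1
    rw [hS]
    refine h1.trans (mul_le_mul_of_nonneg_right ?_ (hterm0 μ n N'))
    push_cast
    have h2 : (Q n : ℝ) ≤ B * ((n : ℝ) + 1) ^ d := by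
      rw [hQ]
      exact Nat.floor_le (by positivity)
    linarith
  -- the upper bound
  have hpu : ∀ (μ : ℝ) (n N : ℕ), 1 ≤ n → 0 < Zn d a L c ℓ n N →
      Real.log (Zn d a L c ℓ n N) + μ * N ≤ p μ * (n : ℝ) ^ d := by
    intro μ n N hL h0
    have hL' : (0 : ℝ) < n := by exact_mod_cast hL
    have hLd : (0 : ℝ) < (n : ℝ) ^ d := by positivity
    rw [← div_le_iff₀ hLd]
    have hk : Tendsto (fun k : ℕ => k * n) atTop atTop :=
      tendsto_id.atTop_mul_const' (by omega)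
    refine ge_of_tendsto ((hlim' μ).comp hk) ?_
    filter_upwards [eventually_ge_atTop 1] with k hk1
    have hk' : (0 : ℝ) < k := by exact_mod_cast hk1
    simp only [Function.comp]
    have h4 := T.sup n k (k * n) (List.replicate (k ^ d) N) hL le_rfl
      (by rw [List.length_replicate])
    rw [List.map_replicate, List.prod_replicate, List.sum_replicate, smul_eq_mul] at h4
    have h5 := h4.trans (hlo (k * n) (k ^ d * N))
    have h6 := hSterm μ (k * n) (k ^ d * N)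
    have h7 : Real.exp (μ * ((k ^ d * N : ℕ) : ℝ)) * Zn d a L c ℓ n N ^ k ^ d ≤ S μ (k * n) :=
      (mul_le_mul_of_nonneg_left h5 (Real.exp_pos _).le).trans h6
    have h8 := Real.log_le_log (by positivity) h7
    rw [Real.log_mul (Real.exp_pos _).ne' (pow_pos h0 _).ne', Real.log_exp,
      Real.log_pow] at h8
    rw [div_le_div_iff₀ hLd (by positivity)]
    push_cast at h8 ⊢
    have h9 : (Real.log (Zn d a L c ℓ n N) + μ * N) * ((k : ℝ) * n) ^ d =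
        (μ * ((k : ℝ) ^ d * N) + (k : ℝ) ^ d * Real.log (Zn d a L c ℓ n N)) * (n : ℝ) ^ d := by
      rw [mul_pow]; ring
    rw [h9]
    exact mul_le_mul_of_nonneg_right h8 hLd.le
  -- the lower bound
  have hpl : ∀ (μ ε : ℝ), 0 < ε → ∃ n N : ℕ, 1 ≤ n ∧ 0 < Zn d a L c ℓ n N ∧
      (p μ - ε) * (n : ℝ) ^ d ≤ Real.log (Zn d a L c ℓ n N) + μ * N := by
    intro μ ε hε
    have hsucc := Pool.Agent.ConfinedGas.tendsto_succ d
    have e1 : Tendsto (fun n : ℕ => (p μ - ε) * (((n : ℝ) + 1) ^ d / (n : ℝ) ^ d) +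
        Real.log ((B + 1) * 2 ^ d * (n : ℝ) ^ d + 1) / (n : ℝ) ^ d) atTop (𝓝 (p μ - ε)) := by
      have h1 := (hsucc.const_mul (p μ - ε)).add
        (log_affine_div hd ((B + 1) * 2 ^ d) 1 (by positivity) one_pos)
      rw [mul_one, add_zero] at h1
      exact h1
    have e2 := e1.eventually_lt (hlim' μ) (by linarith)
    obtain ⟨n, hL, hL1⟩ := (e2.and (eventually_ge_atTop 1)).exists
    have hL' : (1 : ℝ) ≤ n := by exact_mod_cast hL1
    have hL0 : (0 : ℝ) < n := by linarith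
    have hLd : (0 : ℝ) < (n : ℝ) ^ d := by positivity
    obtain ⟨N', hN'⟩ := hSmax μ n
    have h1 : S μ n ≤ ((B + 1) * 2 ^ d * (n : ℝ) ^ d + 1) *
        (Real.exp (μ * N') * Zn d a L c ℓ (n + 1) N') := by
      refine hN'.trans ?_
      have h2 : B * ((n : ℝ) + 1) ^ d + 1 ≤ (B + 1) * 2 ^ d * (n : ℝ) ^ d + 1 := by
        have h3 : ((n : ℝ) + 1) ^ d ≤ (2 * n) ^ d :=
          pow_le_pow_left₀ (by positivity) (by linarith) d
        rw [mul_pow] at h3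
        have h4 : B * ((n : ℝ) + 1) ^ d ≤ (B + 1) * (2 ^ d * (n : ℝ) ^ d) :=
          mul_le_mul (by linarith) h3 (by positivity) (by linarith)
        linarith
      refine mul_le_mul h2 ?_ (hterm0 μ n N') (by positivity)
      exact mul_le_mul_of_nonneg_left (hup n N') (Real.exp_pos _).le
    have hpos : 0 < Zn d a L c ℓ (n + 1) N' := by
      have h2 := lt_of_lt_of_le (hSpos μ n) h1
      have h3 := pos_of_mul_pos_right h2 (by positivity)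
      exact pos_of_mul_pos_right h3 (Real.exp_pos _).le
    refine ⟨n + 1, N', by omega, hpos, ?_⟩
    have h2 := Real.log_le_log (hSpos μ n) h1
    have hA : (0 : ℝ) < (B + 1) * 2 ^ d * (n : ℝ) ^ d + 1 := by positivity
    rw [Real.log_mul hA.ne' (mul_pos (Real.exp_pos _) hpos).ne',
      Real.log_mul (Real.exp_pos _).ne' hpos.ne', Real.log_exp] at h2
    have h3 : ((p μ - ε) * (((n : ℝ) + 1) ^ d / (n : ℝ) ^ d) +
        Real.log ((B + 1) * 2 ^ d * (n : ℝ) ^ d + 1) / (n : ℝ) ^ d) * (n : ℝ) ^ d ≤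
        Real.log (S μ n) / (n : ℝ) ^ d * (n : ℝ) ^ d :=
      mul_le_mul_of_nonneg_right hL.le hLd.le
    rw [div_mul_cancel₀ _ hLd.ne', add_mul, div_mul_cancel₀ _ hLd.ne', mul_assoc,
      div_mul_cancel₀ _ hLd.ne'] at h3
    push_cast
    linarith
  exact ⟨hpu, hpl⟩

theorem trans_zB (P : Pn a L c) {U B : ℝ} (hℓ : Rc a L < ℓ)
    (T : ThG d (Zn d a L c ℓ) U B) {ρ₁ ρ₂ w e m1 m2 : ℝ}
    (h1 : 0 < ρ₁) (h2 : ρ₁ < ρ₂) (h3 : ρ₂ < Th.rz d (Zn d a L c ℓ)) (h31 : ρ₁ ≤ m1)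
    (h32 : m2 ≤ ρ₂)
    (h4 : ∀ ρ ∈ Set.Ioo 0 (Th.rz d (Zn d a L c ℓ)), Th.ff d (Zn d a L c ℓ) ρ ≤ w * ρ + e ∧
        (Th.ff d (Zn d a L c ℓ) ρ = w * ρ + e ↔ ρ ∈ Set.Icc ρ₁ ρ₂))
    (h5 : ¬ AnalyticAt ℝ (Th.ff d (Zn d a L c ℓ)) ρ₁)
    (h6 : ¬ AnalyticAt ℝ (Th.ff d (Zn d a L c ℓ)) ρ₂) :
    Trans d (fun t N => zB d a L c (t * ℓ) N) (Th.rz d (Zn d a L c ℓ)) m1 m2 :=
  ⟨_, ρ₁, ρ₂, w, e, h1, h2, h3, h31, h32, fun _ _ _ hu hN => lim_real P hℓ T hu hN, h4, h5, h6⟩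

/-- A kink of the pressure gives a transition. -/
theorem trans_of_kink_zB (hd : 1 ≤ d) (P : Pn a L c) {l0 : ℝ} (hl0 : 0 < l0) {q : ℝ → ℝ}
    (hlimq : ∀ μ : ℝ, Tendsto (fun n : ℕ => Real.log (∑' k : ℕ, ex (μ * k) *
      ENNReal.ofReal (zB d a L c (n * l0) k)).toReal / (n : ℝ) ^ d) atTop (𝓝 (q μ)))
    {w n1 n2 : ℝ} (hn : n1 < n2) (hw1 : ∀ h : ℝ, 0 < h → q w + h * n2 ≤ q (w + h))
    (hw2 : ∀ h : ℝ, 0 < h → q w - h * n1 ≤ q (w - h)) :
    Trans d (fun t N => zB d a L c t N) (rhoc d a) (n1 / l0 ^ d) (n2 / l0 ^ d) := by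
  have hR := P.R_pos
  obtain ⟨K0, hK⟩ := exists_nat_gt (Rc a L / l0)
  rw [div_lt_iff₀ hl0] at hK
  have hK0 : 1 ≤ K0 := by
    rcases Nat.eq_zero_or_pos K0 with h | h
    · rw [h] at hK
      simp at hK
      linarith
    · exact h
  have hK0' : (0 : ℝ) < K0 := by exact_mod_cast hK0
  have hKd : (0 : ℝ) < (K0 : ℝ) ^ d := by positivity
  have hℓ0 : 0 < K0 * l0 := by linarith
  obtain ⟨U, B, T⟩ := exists_thG hd P hK
  obtain ⟨v, hv, hins⟩ := insert_le (d := d) (ℓ := K0 * l0) P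
  obtain ⟨hpu, hpl⟩ := ensembles hd P hK0 hK hlimq
  obtain ⟨ρ₁, ρ₂, s, e, c1, c2, c3, c4, c5, c6, c7, c8⟩ := T.coexist hv hins
    (p := fun μ => (K0 : ℝ) ^ d * q μ) hpu hpl
    (w := w) (n1 := (K0 : ℝ) ^ d * n1) (n2 := (K0 : ℝ) ^ d * n2)
    (mul_lt_mul_of_pos_left hn hKd)
    (fun h hh => by
      have := mul_le_mul_of_nonneg_left (hw1 h hh) hKd.le
      linarith)
    (fun h hh => by
      have := mul_le_mul_of_nonneg_left (hw2 h hh) hKd.le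
      linarith)
    (hlow_of hd P hK (hpu w))
  have h1 := Trans.scale hℓ0 (trans_zB P hK T c1 c2 c3 c7 c8 c4 c5 c6)
  have e1 : (K0 : ℝ) ^ d * n1 / (K0 * l0) ^ d = n1 / l0 ^ d := by
    rw [mul_pow]
    field_simp
  have e2 : (K0 : ℝ) ^ d * n2 / (K0 * l0) ^ d = n2 / l0 ^ d := by
    rw [mul_pow]
    field_simp
  rw [e1, e2, rz_eq hd P hK] at h1
  exact h1

end Pool.Agent.Ndc
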