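import Pool.Agent.Lib.MP_09cbbd_ndc.NcE
import Pool.Agent.Lib.MP_09cbbd_ndc.Def
import Pool.Agent.Lib.MP_09cbbd_ndm.BLkz

/-!
# From a kink of the pressure to the transition of spheres and needles
-/

set_option autoImplicit false

namespace Pool.Agent.Ndc

open MeasureTheory Finset Filter Topology Pool.Agent.StableGas Pool.Agent.SquareWellGas
  Pool.Agent.SquareWell Pool.Agent.NeedleGas Pool.Agent.ConfinedGas Pool.Agent.Mix.CanM
  Pool.Agent.Mix

variable {d : ℕ} {a L ν : ℝ}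

theorem Z_nonneg' (hν : 0 < ν) (s : ℝ) (N : ℕ) : 0 ≤ NeedleGas.Z d a L ν s N := by
  unfold NeedleGas.Z
  refine mul_nonneg (by positivity) (tsum_nonneg fun M => ?_)
  refine mul_nonneg (div_nonneg (pow_nonneg (div_nonneg hν.le (kap_nonneg d)) M) (by positivity))
    ENNReal.toReal_nonneg

theorem Z_neg (hd : 1 ≤ d) {s : ℝ} (hs : s ≤ 0) (N : ℕ) :
    NeedleGas.Z d a L ν s N = NeedleGas.Z d a L ν 0 N ∧ Box d s = Box d 0 := by
  have e : ∀ t : ℝ, t ≤ 0 → Box d t = ∅ := by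
    intro t ht
    rw [Set.eq_empty_iff_forall_notMem]
    intro x hx
    have h1 := hx ⟨0, hd⟩
    have h2 := h1.1
    have h3 := h1.2
    linarith
  have e2 : Box d s = Box d 0 := by rw [e s hs, e 0 le_rfl]
  refine ⟨?_, e2⟩
  unfold NeedleGas.Z
  rw [e2]

/-- The needles integrated out. -/
theorem Z_eq_zB (hd : 3 ≤ d) (hL : 0 < L) (hν : 0 < ν) (s : ℝ) (N : ℕ) :
    NeedleGas.Z d a L ν s N = zB d a L (ν / kap d) s N := by
  have main : ∀ s : ℝ, 0 ≤ s → NeedleGas.Z d a L ν s N = zB d a L (ν / kap d) s N := by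
    intro s hs
    have h := Pool.Agent.Nbm.Z_fv hd (a := a) hL hν hs N
    have h1 : ∀ x : Fin N → Fin d → ℝ,
        ex (ν / kap d * Pool.Agent.Nbm.fv d a L s (Set.range x)) =
          wN a L (ν / kap d) (Box d s) x := by
      intro x
      unfold wN Pool.Agent.Nbm.fv
      have e : {q : (Fin d → ℝ) × (Fin d → ℝ) | q.1 ∈ Box d s ∧ ∑ k, q.2 k ^ 2 ≤ 1 ∧
          ∀ y ∈ Set.range x, ¬ Hit a L y q.1 q.2} = FN a L (Box d s) x := by
        ext q
        simp only [FN, bl, Set.mem_ofPred_eq, Set.forall_mem_range]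
      rw [e]
      rfl
    simp only [h1] at h
    have h2 := congrArg ENNReal.toReal h
    rw [ENNReal.toReal_ofReal (Z_nonneg' hν s N), ENNReal.toReal_mul, ENNReal.toReal_inv,
      ENNReal.toReal_natCast] at h2
    rw [h2]
    rfl
  rcases le_or_gt 0 s with hs | hs
  · exact main s hs
  · obtain ⟨e1, e2⟩ := Z_neg (a := a) (L := L) (ν := ν) (d := d) (by omega) hs.le N
    rw [e1, main 0 le_rfl]
    unfold zB
    rw [e2]

/-- A kink of the pressure gives a transition. -/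
theorem trans_of_kink (hd : 3 ≤ d) (ha : 0 < a) (hL : 0 < L) (hν : 0 < ν) {l0 : ℝ}
    (hl0 : 0 < l0) {q : ℝ → ℝ}
    (hlimq : ∀ μ : ℝ, Tendsto (fun n : ℕ => Real.log (∑' k : ℕ, ex (μ * k) *
      ENNReal.ofReal (NeedleGas.Z d a L ν (n * l0) k)).toReal / (n : ℝ) ^ d) atTop (𝓝 (q μ)))
    {w n1 n2 : ℝ} (hn : n1 < n2) (hw1 : ∀ h : ℝ, 0 < h → q w + h * n2 ≤ q (w + h))
    (hw2 : ∀ h : ℝ, 0 < h → q w - h * n1 ≤ q (w - h)) :
    Transition d a L ν (rhoc d a) (n1 / l0 ^ d) (n2 / l0 ^ d) := by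
  have P : Pn a L (ν / kap d) := ⟨ha, hL, div_nonneg hν.le (kap_nonneg d)⟩
  simp only [Z_eq_zB hd hL hν] at hlimq
  have h := trans_of_kink_zB (by omega) P hl0 hlimq hn hw1 hw2
  unfold Pool.Agent.Mix.Trans at h
  simp only [← Z_eq_zB hd hL hν] at h
  exact h

theorem Transition_mono {ρ₀ m1 m2 m1' m2' : ℝ} (h : Transition d a L ν ρ₀ m1 m2)
    (h1 : m1 ≤ m1') (h2 : m2' ≤ m2) : Transition d a L ν ρ₀ m1' m2' := by
  obtain ⟨f, ρ₁, ρ₂, c, e, c1, c2, c3, c4, c5, c6⟩ := h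
  exact ⟨f, ρ₁, ρ₂, c, e, c1, c2, c3, c4.trans h1, h2.trans c5, c6⟩

end Pool.Agent.Ndc
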